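import Mathlib

/-!
Function model of the skew Laurent module: the `K`-span of the functions `x ↦ F^i (x j)`.
-/

namespace Pool.Agent.R369.Fad

open Polynomial

variable {K : Type*} [Field K] [IsAlgClosed K] (p : ℕ) [hp : Fact p.Prime] [CharP K p]

/-- The Frobenius automorphism. -/
noncomputable abbrev Fr : K ≃+* K := frobeniusEquiv K p

theorem Fr_apply (x : K) : Fr p x = x ^ p := frobeniusEquiv_apply K p x

/-- Integer powers of Frobenius as functions. -/
noncomputable def Fz (i : ℤ) (x : K) : K := ((Fr p : K ≃+* K) ^ i : RingAut K) x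

theorem Fz_add' (i : ℤ) (x y : K) : Fz p i (x + y) = Fz p i x + Fz p i y :=
  map_add _ _ _

theorem Fz_mul' (i : ℤ) (x y : K) : Fz p i (x * y) = Fz p i x * Fz p i y :=
  map_mul _ _ _

theorem Fz_sum {ι : Type*} (i : ℤ) (s : Finset ι) (f : ι → K) :
    Fz p i (∑ j ∈ s, f j) = ∑ j ∈ s, Fz p i (f j) :=
  map_sum (((Fr p : K ≃+* K) ^ i : RingAut K)) _ _

theorem Fz_zero_right (i : ℤ) : Fz p i (0 : K) = 0 := map_zero _

theorem Fz_one_right (i : ℤ) : Fz p i (1 : K) = 1 := map_one _

theorem Fz_neg (i : ℤ) (x : K) : Fz p i (-x) = -Fz p i x := map_neg _ _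

theorem Fz_sub (i : ℤ) (x y : K) : Fz p i (x - y) = Fz p i x - Fz p i y := map_sub _ _ _

theorem Fz_pow' (i : ℤ) (x : K) (n : ℕ) : Fz p i (x ^ n) = Fz p i x ^ n := map_pow _ _ _

theorem Fz_inv (i : ℤ) (x : K) : Fz p i (x⁻¹) = (Fz p i x)⁻¹ := map_inv₀ _ _

theorem Fz_inj (i : ℤ) : Function.Injective (Fz (K := K) p i) :=
  RingEquiv.injective _

theorem Fz_ne_zero (i : ℤ) {x : K} (hx : x ≠ 0) : Fz p i x ≠ 0 := by
  intro h
  exact hx (Fz_inj p i (by rw [h, Fz_zero_right]))

theorem Fz_zero (x : K) : Fz p 0 x = x := by
  unfold Fz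
  rw [zpow_zero]
  rfl

theorem Fz_comp (i j : ℤ) (x : K) : Fz p i (Fz p j x) = Fz p (i + j) x := by
  unfold Fz
  rw [zpow_add]
  rfl

theorem Fz_one (x : K) : Fz p 1 x = x ^ p := by
  unfold Fz
  rw [zpow_one]
  exact frobeniusEquiv_apply K p x

theorem Fz_nat (n : ℕ) (x : K) : Fz p (n : ℤ) x = x ^ p ^ n := by
  induction n with
  | zero => simp [Fz_zero]
  | succ n ih =>
    have : ((n + 1 : ℕ) : ℤ) = 1 + (n : ℤ) := by push_cast; ring
    rw [this, ← Fz_comp, ih, Fz_one, ← pow_mul, pow_succ]

/-- The operator `Φ^i : f ↦ F^i ∘ f`. -/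
noncomputable def Ph {V : Type*} (i : ℤ) (f : V → K) : V → K := fun x => Fz p i (f x)

theorem Ph_add {V : Type*} (i : ℤ) (f g : V → K) : Ph p i (f + g) = Ph p i f + Ph p i g := by
  funext x
  exact Fz_add' p i _ _

theorem Ph_smul {V : Type*} (i : ℤ) (c : K) (f : V → K) :
    Ph p i (c • f) = Fz p i c • Ph p i f := by
  funext x
  exact Fz_mul' p i _ _

theorem Ph_zero {V : Type*} (i : ℤ) : Ph p i (0 : V → K) = 0 := by
  funext x
  exact Fz_zero_right p i

theorem Ph_comp {V : Type*} (i j : ℤ) (f : V → K) : Ph p i (Ph p j f) = Ph p (i + j) f := by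
  funext x
  exact Fz_comp p i j _

theorem Ph_z {V : Type*} (f : V → K) : Ph p 0 f = f := by
  funext x
  exact Fz_zero p _

/-- The basic functions `x ↦ F^i (x j)`. -/
noncomputable def ef (r : ℕ) (i : ℤ) (j : Fin r) : (Fin r → K) → K := fun x => Fz p i (x j)

/-- The `K`-span of the functions `x ↦ F^i (x j)`. -/
noncomputable def Nm (r : ℕ) : Submodule K ((Fin r → K) → K) :=
  Submodule.span K (Set.range fun ij : ℤ × Fin r => ef p r ij.1 ij.2)

theorem ef_mem (r : ℕ) (i : ℤ) (j : Fin r) : ef p r i j ∈ Nm (K := K) p r :=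
  Submodule.subset_span ⟨(i, j), rfl⟩

theorem Ph_ef (r : ℕ) (i k : ℤ) (j : Fin r) : Ph p k (ef (K := K) p r i j) = ef p r (k + i) j := by
  funext x
  exact Fz_comp p k i _

theorem Ph_mem (r : ℕ) (k : ℤ) {f : (Fin r → K) → K} (hf : f ∈ Nm p r) : Ph p k f ∈ Nm p r := by
  induction hf using Submodule.span_induction with
  | mem x h =>
    obtain ⟨ij, rfl⟩ := h
    dsimp only
    rw [Ph_ef]
    exact ef_mem p r _ _
  | zero => rw [Ph_zero]; exact Submodule.zero_mem _
  | add x y _ _ hx hy => rw [Ph_add]; exact Submodule.add_mem _ hx hy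
  | smul a x _ hx => rw [Ph_smul]; exact Submodule.smul_mem _ _ hx

theorem Nm_add (r : ℕ) {f : (Fin r → K) → K} (hf : f ∈ Nm p r) (x y : Fin r → K) :
    f (x + y) = f x + f y := by
  induction hf using Submodule.span_induction with
  | mem g h =>
    obtain ⟨ij, rfl⟩ := h
    exact Fz_add' p _ _ _
  | zero => simp
  | add g h _ _ hx hy =>
    simp only [Pi.add_apply] at *
    rw [hx, hy]; ring
  | smul a g _ hx =>
    simp only [Pi.smul_apply, smul_eq_mul] at *
    rw [hx]; ring

/-- The one-variable span: the `K`-span of the functions `F^i`. -/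
noncomputable def N1 : Submodule K (K → K) := Submodule.span K (Set.range fun i : ℤ => Fz p i)

theorem Fz_mem (i : ℤ) : Fz p i ∈ N1 (K := K) p := Submodule.subset_span ⟨i, rfl⟩

theorem N1_comp (r : ℕ) {f : K → K} (hf : f ∈ N1 p) (j : Fin r) :
    (fun x : Fin r → K => f (x j)) ∈ Nm (K := K) p r := by
  induction hf using Submodule.span_induction with
  | mem g h =>
    obtain ⟨i, rfl⟩ := h
    exact ef_mem p r i j
  | zero => exact Submodule.zero_mem _
  | add g h _ _ hx hy => exact Submodule.add_mem _ hx hy
  | smul a g _ hx => exact Submodule.smul_mem _ a hx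

theorem N1_Fr {f : K → K} (hf : f ∈ N1 p) : (fun x : K => f (x ^ p)) ∈ N1 (K := K) p := by
  induction hf using Submodule.span_induction with
  | mem g h =>
    obtain ⟨i, rfl⟩ := h
    have : (fun x : K => Fz p i (x ^ p)) = Fz p (i + 1) := by
      funext x
      rw [← Fz_one, Fz_comp]
    rw [this]
    exact Fz_mem p _
  | zero => exact Submodule.zero_mem _
  | add g h _ _ hx hy => exact Submodule.add_mem _ hx hy
  | smul a g _ hx => exact Submodule.smul_mem _ a hx

/-- Additive one-variable polynomial functions are combinations of powers of Frobenius. -/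
theorem additive_poly_aux (n : ℕ) : ∀ Q : K[X], Q.natDegree ≤ n →
    (∀ a b : K, Q.eval (a + b) = Q.eval a + Q.eval b) → (fun a => Q.eval a) ∈ N1 (K := K) p := by
  induction n using Nat.strong_induction_on with
  | _ n ih =>
    intro Q hn hQ
    have h0 : Q.eval 0 = 0 := by
      have := hQ 0 0
      rw [add_zero] at this
      linear_combination -this
    -- the derivative is constant
    have hder : ∀ b, derivative Q = (derivative Q).comp (X + C b) := by
      intro b
      have h1 : Q.comp (X + C b) = Q + C (Q.eval b) := by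
        apply Polynomial.funext
        intro a
        simp [hQ]
      have h2 := congrArg derivative h1
      rw [derivative_comp] at h2
      simpa using h2.symm
    have hconst : derivative Q = C ((derivative Q).eval 0) := by
      apply Polynomial.funext
      intro b
      have := congrArg (fun P => Polynomial.eval 0 P) (hder b)
      simp only [eval_comp, eval_add, eval_X, eval_C, zero_add] at this
      rw [eval_C, this]
    set c := (derivative Q).eval 0 with hc
    set R0 : K[X] := Q - C c * X with hR0
    have hR0d : derivative R0 = 0 := by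
      rw [hR0, derivative_sub, hconst]
      simp
    have hexp := expand_contract p hR0d hp.out.ne_zero
    set R := contract p R0 with hR
    have hR0e : ∀ a, R0.eval a = R.eval (a ^ p) := by
      intro a
      rw [← hexp, expand_eval]
    have hR0a : ∀ a b : K, R0.eval (a + b) = R0.eval a + R0.eval b := by
      intro a b
      simp only [hR0, eval_sub, eval_mul, eval_C, eval_X, hQ]
      ring
    have hRa : ∀ a b : K, R.eval (a + b) = R.eval a + R.eval b := by
      intro a b
      obtain ⟨a', rfl⟩ := (Fr p : K ≃+* K).surjective a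
      obtain ⟨b', rfl⟩ := (Fr p : K ≃+* K).surjective b
      rw [← map_add, Fr_apply, Fr_apply, Fr_apply, ← hR0e, ← hR0e, ← hR0e, hR0a]
    have hmem : (fun a => R.eval a) ∈ N1 (K := K) p := by
      by_cases hdeg : R.natDegree = 0
      · have : R = C (R.coeff 0) := eq_C_of_natDegree_eq_zero hdeg
        have h3 : R.eval 0 = 0 := by
          have := hR0e 0
          rw [zero_pow hp.out.ne_zero] at this
          rw [← this, hR0]
          simp [h0]
        have h4 : R = 0 := by
          rw [this] at h3
          rw [eval_C] at h3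
          rw [this, h3, C_0]
        rw [h4]
        simp only [eval_zero]
        exact Submodule.zero_mem _
      · have hRd : R.natDegree * p = R0.natDegree := by
          rw [← hexp, natDegree_expand]
        have hR0n : R0.natDegree ≤ max n 1 := by
          rw [hR0]
          refine (natDegree_sub_le _ _).trans ?_
          refine max_le_max hn ?_
          exact (natDegree_C_mul_le _ _).trans natDegree_X_le
        have hp2 := hp.out.two_le
        have h5 : R.natDegree * 2 ≤ max n 1 := by
          calc R.natDegree * 2 ≤ R.natDegree * p := Nat.mul_le_mul_left _ hp2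
            _ = R0.natDegree := hRd
            _ ≤ _ := hR0n
        have h6 : 1 ≤ R.natDegree := Nat.one_le_iff_ne_zero.mpr hdeg
        have h7 : R.natDegree < n := by
          rcases le_or_gt n 1 with h | h
          · rw [max_eq_right h] at h5
            omega
          · rw [max_eq_left h.le] at h5
            omega
        exact ih R.natDegree h7 R le_rfl hRa
    have hsum : (fun a => Q.eval a) = (fun a => R.eval (a ^ p)) + c • (Fz p 0 : K → K) := by
      funext a
      simp only [Pi.add_apply, Pi.smul_apply, smul_eq_mul, Fz_zero]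
      rw [← hR0e, hR0]
      simp
    rw [hsum]
    exact Submodule.add_mem _ (N1_Fr p hmem) (Submodule.smul_mem _ _ (Fz_mem p 0))

theorem additive_poly (Q : K[X]) (hQ : ∀ a b : K, Q.eval (a + b) = Q.eval a + Q.eval b) :
    (fun a => Q.eval a) ∈ N1 (K := K) p :=
  additive_poly_aux p Q.natDegree Q le_rfl hQ

/-- Additive polynomial functions in several variables lie in the function model. -/
theorem additive_mvPoly (r : ℕ) (P : MvPolynomial (Fin r) K)
    (hP : ∀ x y : Fin r → K, MvPolynomial.eval (x + y) P =
      MvPolynomial.eval x P + MvPolynomial.eval y P) :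
    (fun x => MvPolynomial.eval x P) ∈ Nm (K := K) p r := by
  classical
  let ax : Fin r → K[X] := fun j =>
    MvPolynomial.aeval (fun k => if k = j then (X : K[X]) else 0) P
  have hax : ∀ j a, (ax j).eval a = MvPolynomial.eval (Pi.single j a) P := by
    intro j a
    have h1 : (ax j).eval a =
        (Polynomial.evalRingHom a) (MvPolynomial.aeval (fun k => if k = j then (X : K[X]) else 0) P) :=
      rfl
    rw [h1, MvPolynomial.aeval_def, MvPolynomial.hom_eval₂]
    change _ = MvPolynomial.eval₂ (RingHom.id K) (Pi.single j a) P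
    congr 1
    · ext k
      simp
    · funext k
      rw [Pi.single_apply]
      split_ifs <;> simp
  have hsumax : ∀ (s : Finset (Fin r)) (x : Fin r → K),
      MvPolynomial.eval (∑ j ∈ s, Pi.single j (x j)) P =
        ∑ j ∈ s, MvPolynomial.eval (Pi.single j (x j)) P := by
    intro s x
    induction s using Finset.induction_on with
    | empty =>
      have := hP 0 0
      rw [add_zero] at this
      simp only [Finset.sum_empty]
      linear_combination -this
    | insert j s hj ih => rw [Finset.sum_insert hj, Finset.sum_insert hj, hP, ih]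
  have hfun : (fun x => MvPolynomial.eval x P) =
      ∑ j : Fin r, fun x : Fin r → K => (ax j).eval (x j) := by
    funext x
    rw [Finset.sum_apply]
    conv_lhs => rw [← Finset.univ_sum_single x]
    rw [hsumax]
    exact Finset.sum_congr rfl fun j _ => (hax j (x j)).symm
  rw [hfun]
  refine Submodule.sum_mem _ fun j _ => ?_
  refine N1_comp p r (additive_poly p (ax j) ?_) j
  intro a b
  rw [hax, hax, hax, Pi.single_add, hP]

end Pool.Agent.R369.Fad
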