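import Pool.Agent.R369.Fad.One

/-!
The number of common zeros of a stable subspace of the function model is `p` to its codimension.
-/

namespace Pool.Agent.R369.Fad

open Polynomial

variable {K : Type*} [Field K] [IsAlgClosed K] (p : ℕ) [hp : Fact p.Prime] [CharP K p]

/-- Common zeros of a set of functions. -/
def Zs {V : Type*} (J : Submodule K (V → K)) : Set V := {x | ∀ f ∈ J, f x = 0}

/-- The number of roots of `c 0 X + c 1 X^p + ... + c d X^(p^d) + y`. -/
theorem card_fibre (d : ℕ) (c : ℕ → K) (h0 : c 0 ≠ 0) (hd : c d ≠ 0) (y : K) :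
    Nat.card {a : K // gs p (d + 1) c a + y = 0} = p ^ d := by
  classical
  set Q : K[X] := ∑ i ∈ Finset.range (d + 1), C (c i) * X ^ p ^ i + C y with hQ
  have hev : ∀ a, Q.eval a = gs p (d + 1) c a + y := by
    intro a
    rw [hQ, eval_add, eval_C, eval_finsetSum, gs_apply]
    congr 1
    refine Finset.sum_congr rfl fun i _ => ?_
    simp
  have hp1 : 1 < p := hp.out.one_lt
  have hlow : (∑ i ∈ Finset.range d, C (c i) * X ^ p ^ i + C y : K[X]).degree < ((p ^ d : ℕ) : WithBot ℕ) ∨ d = 0 := by
    rcases Nat.eq_zero_or_pos d with h | h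
    · exact Or.inr h
    · left
      refine (degree_add_le _ _).trans_lt (max_lt ?_ ?_)
      · refine (degree_sum_le _ _).trans_lt ?_
        rw [Finset.sup_lt_iff (WithBot.bot_lt_coe _)]
        intro i hi
        rw [Finset.mem_range] at hi
        refine (degree_C_mul_X_pow_le _ _).trans_lt ?_
        exact_mod_cast Nat.pow_lt_pow_right hp1 hi
      · refine degree_C_le.trans_lt ?_
        exact_mod_cast Nat.pow_pos hp.out.pos
  have hdeg : Q.natDegree = p ^ d := by
    have hsplit : Q = C (c d) * X ^ p ^ d + (∑ i ∈ Finset.range d, C (c i) * X ^ p ^ i + C y) := by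
      rw [hQ, Finset.sum_range_succ]
      ring
    rcases hlow with h | h
    · rw [hsplit]
      rw [natDegree_add_eq_left_of_degree_lt]
      · exact natDegree_C_mul_X_pow _ _ hd
      · rw [degree_C_mul_X_pow _ hd]
        exact h
    · subst h
      rw [hsplit]
      simp only [Finset.range_zero, Finset.sum_empty, zero_add, pow_zero, pow_one]
      exact natDegree_linear hd
  have hder : derivative Q = C (c 0) := by
    rw [hQ, derivative_add, derivative_C, add_zero, derivative_sum, Finset.sum_range_succ']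
    have : ∀ i ∈ Finset.range d, derivative (C (c (i + 1)) * X ^ p ^ (i + 1) : K[X]) = 0 := by
      intro i _
      rw [derivative_C_mul, derivative_X_pow]
      have : ((p ^ (i + 1) : ℕ) : K) = 0 := by
        push_cast
        rw [CharP.cast_eq_zero, zero_pow (by omega)]
      rw [this]
      simp
    rw [Finset.sum_eq_zero this]
    simp
  have hsep : Q.Separable := by
    rw [Polynomial.Separable, hder]
    refine ⟨0, C (c 0)⁻¹, ?_⟩
    rw [zero_mul, zero_add, ← C_mul, inv_mul_cancel₀ h0, C_1]
  have hQ0 : Q ≠ 0 := by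
    intro h
    rw [h, derivative_zero] at hder
    exact h0 (C_eq_zero.mp hder.symm)
  have hcard : Q.roots.card = p ^ d := by
    rw [← hdeg]
    exact (splits_iff_card_roots.mp (IsAlgClosed.splits Q))
  have hnd := nodup_roots hsep
  have : {a : K | gs p (d + 1) c a + y = 0} = (Q.roots.toFinset : Set K) := by
    ext a
    simp only [Finset.mem_coe, Multiset.mem_toFinset, mem_roots hQ0, IsRoot.def, hev]
    rfl
  change Nat.card {a : K | gs p (d + 1) c a + y = 0} = p ^ d
  rw [this, Nat.card_coe_set_eq, Set.ncard_coe_finset, Multiset.toFinset_card_of_nodup hnd, hcard]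

theorem cons_add (r : ℕ) (a b : K) (x y : Fin r → K) :
    (Fin.cons (a + b) (x + y) : Fin (r + 1) → K) = Fin.cons a x + Fin.cons b y := by
  funext j
  refine Fin.cases ?_ (fun i => ?_) j <;> simp

/-- The pull-back along the tail map. -/
noncomputable def tl (r : ℕ) : ((Fin r → K) → K) →ₗ[K] ((Fin (r + 1) → K) → K) :=
  LinearMap.funLeft K K (fun x : Fin (r + 1) → K => Fin.tail x)

/-- Restriction to the first axis. -/
noncomputable def rs (r : ℕ) : ((Fin (r + 1) → K) → K) →ₗ[K] (K → K) :=
  LinearMap.funLeft K K (fun a : K => (Fin.cons a 0 : Fin (r + 1) → K))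

/-- Restriction to the hyperplane. -/
noncomputable def hy (r : ℕ) : ((Fin (r + 1) → K) → K) →ₗ[K] ((Fin r → K) → K) :=
  LinearMap.funLeft K K (fun x : Fin r → K => (Fin.cons 0 x : Fin (r + 1) → K))

theorem tl_apply (r : ℕ) (f : (Fin r → K) → K) (x : Fin (r + 1) → K) :
    tl r f x = f (Fin.tail x) := rfl

theorem rs_apply (r : ℕ) (f : (Fin (r + 1) → K) → K) (a : K) :
    rs r f a = f (Fin.cons a 0) := rfl

theorem hy_apply (r : ℕ) (f : (Fin (r + 1) → K) → K) (x : Fin r → K) :
    hy r f x = f (Fin.cons 0 x) := rfl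

theorem tl_mem (r : ℕ) {f : (Fin r → K) → K} (hf : f ∈ Nm p r) : tl r f ∈ Nm p (r + 1) := by
  have : Nm (K := K) p r ≤ (Nm p (r + 1)).comap (tl r) := by
    unfold Nm
    rw [Submodule.span_le]
    rintro _ ⟨⟨i, j⟩, rfl⟩
    exact ef_mem p (r + 1) i j.succ
  exact this hf

theorem rs_ef_zero (r : ℕ) (i : ℤ) : rs r (ef (K := K) p (r + 1) i 0) = Fz p i := by
  funext a
  rw [rs_apply]
  unfold ef
  rw [Fin.cons_zero]

theorem rs_ef_succ (r : ℕ) (i : ℤ) (j : Fin r) : rs r (ef (K := K) p (r + 1) i j.succ) = 0 := by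
  funext a
  rw [rs_apply]
  unfold ef
  rw [Fin.cons_succ]
  exact Fz_zero_right p i

theorem rs_mem (r : ℕ) {f : (Fin (r + 1) → K) → K} (hf : f ∈ Nm p (r + 1)) :
    rs r f ∈ N1 (K := K) p := by
  have : Nm (K := K) p (r + 1) ≤ (N1 p).comap (rs r) := by
    conv_lhs => unfold Nm
    rw [Submodule.span_le]
    rintro _ ⟨⟨i, j⟩, rfl⟩
    change rs r (ef (K := K) p (r + 1) i j) ∈ N1 p
    refine Fin.cases ?_ (fun j => ?_) j
    · rw [rs_ef_zero]
      exact Fz_mem p i
    · rw [rs_ef_succ]
      exact Submodule.zero_mem _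
  exact this hf

theorem hy_mem (r : ℕ) {f : (Fin (r + 1) → K) → K} (hf : f ∈ Nm p (r + 1)) :
    hy r f ∈ Nm (K := K) p r := by
  have : Nm (K := K) p (r + 1) ≤ (Nm p r).comap (hy r) := by
    conv_lhs => unfold Nm
    rw [Submodule.span_le]
    rintro _ ⟨⟨i, j⟩, rfl⟩
    change hy r (ef (K := K) p (r + 1) i j) ∈ Nm p r
    refine Fin.cases ?_ (fun j => ?_) j
    · have : hy r (ef (K := K) p (r + 1) i 0) = 0 := by
        funext x
        rw [hy_apply]
        unfold ef
        rw [Fin.cons_zero]
        exact Fz_zero_right p i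
      rw [this]
      exact Submodule.zero_mem _
    · exact ef_mem p r i j
  exact this hf

theorem split_fun (r : ℕ) {f : (Fin (r + 1) → K) → K} (hf : f ∈ Nm p (r + 1)) (a : K)
    (x : Fin r → K) : f (Fin.cons a x) = rs r f a + hy r f x := by
  rw [rs_apply, hy_apply, ← Nm_add p (r + 1) hf, ← cons_add, add_zero, zero_add]

theorem eq_tl_of_rs (r : ℕ) {f : (Fin (r + 1) → K) → K} (hf : f ∈ Nm p (r + 1))
    (h : rs r f = 0) : f = tl r (hy r f) := by
  funext x
  rw [tl_apply]
  conv_lhs => rw [← Fin.cons_self_tail x]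
  rw [split_fun p r hf, h, Pi.zero_apply, zero_add]

theorem rs_tl (r : ℕ) {f : (Fin r → K) → K} (hf : f ∈ Nm p r) : rs r (tl r f) = 0 := by
  funext a
  rw [rs_apply, tl_apply, Fin.tail_cons]
  have := Nm_add p r hf 0 0
  rw [add_zero] at this
  rw [Pi.zero_apply]
  linear_combination -this

theorem hy_tl (r : ℕ) (f : (Fin r → K) → K) : hy r (tl r f) = f := by
  funext x
  rw [hy_apply, tl_apply, Fin.tail_cons]

theorem rs_Ph (r : ℕ) (k : ℤ) (f : (Fin (r + 1) → K) → K) : rs r (Ph p k f) = Ph p k (rs r f) :=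
  rfl

theorem tl_Ph (r : ℕ) (k : ℤ) (f : (Fin r → K) → K) : tl r (Ph p k f) = Ph p k (tl r f) :=
  rfl

/-- The codimension formula. -/
theorem count_zeros (r : ℕ) : ∀ (J : Submodule K ((Fin r → K) → K)), J ≤ Nm p r →
    (∀ (k : ℤ) (f : (Fin r → K) → K), f ∈ J → Ph p k f ∈ J) → (Zs J).Finite →
    ∃ (ι : Type) (_ : Fintype ι) (b : ι → ((Fin r → K) → K)),
      (∀ i, b i ∈ Nm (K := K) p r) ∧
      (∀ f ∈ Nm (K := K) p r, ∃ a : ι → K, f - ∑ i, a i • b i ∈ J) ∧
      (∀ a : ι → K, ∑ i, a i • b i ∈ J → a = 0) ∧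
      Nat.card (Zs J) = p ^ Fintype.card ι := by
  classical
  induction r with
  | zero =>
    intro J hJ _ _
    have hN : Nm (K := K) p 0 = ⊥ := by
      unfold Nm
      rw [Set.range_eq_empty, Submodule.span_empty]
    have hJ0 : J = ⊥ := by
      rw [hN] at hJ
      exact le_bot_iff.mp hJ
    refine ⟨Empty, inferInstance, fun i => i.elim, fun i => i.elim, ?_, ?_, ?_⟩
    · intro f hf
      refine ⟨fun i => i.elim, ?_⟩
      rw [hN, Submodule.mem_bot] at hf
      simp [hf]
    · intro a _
      funext i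
      exact i.elim
    · have : Zs J = Set.univ := by
        ext x
        simp only [Set.mem_univ, iff_true]
        intro f hf
        rw [hJ0, Submodule.mem_bot] at hf
        rw [hf]
        rfl
      rw [this]
      simp
  | succ r ih =>
    intro J hJ hst hfin
    -- the subspace for the last coordinates
    let J0 : Submodule K ((Fin r → K) → K) := Nm p r ⊓ J.comap (tl r)
    have hJ0 : ∀ f, f ∈ J0 ↔ f ∈ Nm p r ∧ tl r f ∈ J := fun f => Iff.rfl
    let I : Submodule K (K → K) := J.map (rs r)
    have hIN : I ≤ N1 p := by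
      rintro _ ⟨f, hf, rfl⟩
      exact rs_mem p r (hJ hf)
    have hIst : ∀ (k : ℤ) (f : K → K), f ∈ I → Ph p k f ∈ I := by
      rintro k _ ⟨f, hf, rfl⟩
      exact ⟨Ph p k f, hst k f hf, rfl⟩
    have hIne : I ≠ ⊥ := by
      intro hbot
      have hsub : Set.range (fun a : K => (Fin.cons a 0 : Fin (r + 1) → K)) ⊆ Zs J := by
        rintro _ ⟨a, rfl⟩ f hf
        have : rs r f ∈ I := ⟨f, hf, rfl⟩
        rw [hbot, Submodule.mem_bot] at this
        exact congrFun this a
      have hinj : Function.Injective (fun a : K => (Fin.cons a 0 : Fin (r + 1) → K)) := by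
        intro a b h
        have := congrFun h 0
        simpa using this
      exact (Set.infinite_range_of_injective hinj) (hfin.subset hsub)
    obtain ⟨d, c, hc0, hcd, hgI, hind, hspan⟩ := stable_structure p I hIN hIst hIne
    obtain ⟨G, hGJ, hG⟩ := hgI
    have hrsPh : ∀ k, rs r (Ph p k G) = Ph p k (gs p (d + 1) c) := by
      intro k
      rw [rs_Ph, hG]
    -- spans of the shifts
    have hspanmap : Submodule.span K (Set.range fun k : ℤ => Ph p k (gs p (d + 1) c)) =
        (Submodule.span K (Set.range fun k : ℤ => Ph p k G)).map (rs r) := by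
      rw [Submodule.map_span, ← Set.range_comp]
      congr 1
      congr 1
      funext k
      exact (hrsPh k).symm
    have hspanJ : Submodule.span K (Set.range fun k : ℤ => Ph p k G) ≤ J := by
      rw [Submodule.span_le]
      rintro _ ⟨k, rfl⟩
      exact hst k G hGJ
    -- every element of `J` is a combination of shifts of `G` plus something from `J0`
    have hdecN : ∀ f ∈ Nm (K := K) p (r + 1), ∃ (a : ℕ → K) (s : (Fin (r + 1) → K) → K),
        s ∈ Submodule.span K (Set.range fun k : ℤ => Ph p k G) ∧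
        rs r f = rs r s + gs p d a := by
      intro f hf
      obtain ⟨a, ha⟩ := hspan _ (rs_mem p r hf)
      rw [hspanmap] at ha
      obtain ⟨s, hs, hs2⟩ := ha
      exact ⟨a, s, hs, by rw [hs2]; abel⟩
    have hdecJ : ∀ f ∈ J, ∃ s ∈ Submodule.span K (Set.range fun k : ℤ => Ph p k G),
        ∃ f0 ∈ J0, f = tl r f0 + s := by
      intro f hf
      obtain ⟨a, s, hs, h⟩ := hdecN f (hJ hf)
      have h1 : gs p d a ∈ I := by
        have : gs p d a = rs r (f - s) := by
          rw [map_sub, h]; abel
        rw [this]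
        exact ⟨f - s, Submodule.sub_mem _ hf (hspanJ hs), rfl⟩
      have h2 : gs p d a = 0 := by
        unfold gs
        refine Finset.sum_eq_zero fun i hi => ?_
        rw [hind a h1 i (Finset.mem_range.mp hi), zero_smul]
      have h3 : f - s ∈ J := Submodule.sub_mem _ hf (hspanJ hs)
      have h4 : rs r (f - s) = 0 := by
        rw [map_sub, h, h2, add_zero, sub_self]
      have h5 := eq_tl_of_rs p r (hJ h3) h4
      refine ⟨s, hs, hy r (f - s), ?_, ?_⟩
      · rw [hJ0]
        exact ⟨hy_mem p r (hJ h3), by rw [← h5]; exact h3⟩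
      · rw [← h5]; abel
    -- the zero set
    have hZ : ∀ (a : K) (x : Fin r → K), (Fin.cons a x : Fin (r + 1) → K) ∈ Zs J ↔
        x ∈ Zs J0 ∧ gs p (d + 1) c a + hy r G x = 0 := by
      intro a x
      have hGv : G (Fin.cons a x) = gs p (d + 1) c a + hy r G x := by
        rw [split_fun p r (hJ hGJ), hG]
      constructor
      · intro h
        refine ⟨?_, ?_⟩
        · intro f hf
          have := h _ ((hJ0 f).mp hf).2
          rwa [tl_apply, Fin.tail_cons] at this
        · rw [← hGv]
          exact h G hGJ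
      · rintro ⟨h1, h2⟩ f hf
        obtain ⟨s, hs, f0, hf0, rfl⟩ := hdecJ f hf
        rw [Pi.add_apply, tl_apply, Fin.tail_cons, h1 f0 hf0, zero_add]
        have hle : Submodule.span K (Set.range fun k : ℤ => Ph p k G) ≤
            LinearMap.ker (LinearMap.proj (R := K) (φ := fun _ => K)
              (Fin.cons a x : Fin (r + 1) → K)) := by
          rw [Submodule.span_le]
          rintro _ ⟨k, rfl⟩
          change Ph p k G (Fin.cons a x) = 0
          unfold Ph
          rw [hGv, h2, Fz_zero_right]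
        exact hle hs
    -- the fibres
    have hfib : ∀ y : K, Nat.card {a : K // gs p (d + 1) c a + y = 0} = p ^ d :=
      card_fibre p d c hc0 hcd
    have hfibne : ∀ y : K, Nonempty {a : K // gs p (d + 1) c a + y = 0} := by
      intro y
      have h1 : 0 < Nat.card {a : K // gs p (d + 1) c a + y = 0} := by
        rw [hfib]
        exact Nat.pow_pos hp.out.pos
      exact (Nat.card_pos_iff.mp h1).1
    have hfibfin : ∀ y : K, Finite {a : K // gs p (d + 1) c a + y = 0} := by
      intro y
      have h1 : 0 < Nat.card {a : K // gs p (d + 1) c a + y = 0} := by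
        rw [hfib]
        exact Nat.pow_pos hp.out.pos
      exact (Nat.card_pos_iff.mp h1).2
    have hZ0fin : (Zs J0).Finite := by
      have : Zs J0 ⊆ (fun x : Fin (r + 1) → K => Fin.tail x) '' (Zs J) := by
        intro x hx
        obtain ⟨a, ha⟩ := hfibne (hy r G x)
        exact ⟨Fin.cons a x, (hZ a x).mpr ⟨hx, ha⟩, Fin.tail_cons _ _⟩
      exact (hfin.image _).subset this
    have hJ0st : ∀ (k : ℤ) (f : (Fin r → K) → K), f ∈ J0 → Ph p k f ∈ J0 := by
      intro k f hf
      rw [hJ0] at hf ⊢
      exact ⟨Ph_mem p r k hf.1, by rw [tl_Ph]; exact hst k _ hf.2⟩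
    obtain ⟨ι, hι, b, hbN, hbs, hbi, hcard⟩ := ih J0 (fun f hf => ((hJ0 f).mp hf).1) hJ0st hZ0fin
    refine ⟨ι ⊕ Fin d, inferInstance,
      Sum.elim (fun i => tl r (b i)) (fun i => ef p (r + 1) (i : ℕ) 0), ?_, ?_, ?_, ?_⟩
    · rintro (i | i)
      · exact tl_mem p r (hbN i)
      · exact ef_mem p _ _ _
    · intro f hf
      obtain ⟨a, s, hs, h⟩ := hdecN f hf
      have hgs : rs r (∑ i : Fin d, a i • ef (K := K) p (r + 1) (i : ℕ) 0) = gs p d a := by
        rw [map_sum]
        unfold gs
        rw [Finset.sum_range]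
        refine Finset.sum_congr rfl fun i _ => ?_
        rw [map_smul, rs_ef_zero]
      set f2 := f - s - ∑ i : Fin d, a i • ef (K := K) p (r + 1) (i : ℕ) 0 with hf2
      have hf2N : f2 ∈ Nm (K := K) p (r + 1) := by
        refine Submodule.sub_mem _ (Submodule.sub_mem _ hf (hJ (hspanJ hs))) ?_
        exact Submodule.sum_mem _ fun i _ => Submodule.smul_mem _ _ (ef_mem p _ _ _)
      have hf2r : rs r f2 = 0 := by
        rw [hf2, map_sub, map_sub, hgs, h]
        abel
      have hf2t := eq_tl_of_rs p r hf2N hf2r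
      obtain ⟨a', ha'⟩ := hbs _ (hy_mem p r hf2N)
      refine ⟨Sum.elim a' (fun i => a i), ?_⟩
      rw [Fintype.sum_sum_type]
      simp only [Sum.elim_inl, Sum.elim_inr]
      have h6 : tl r (hy r f2 - ∑ i, a' i • b i) ∈ J := ((hJ0 _).mp ha').2
      have h7 : f - (∑ i, a' i • tl r (b i) + ∑ i : Fin d, a i • ef (K := K) p (r + 1) (i : ℕ) 0) =
          s + tl r (hy r f2 - ∑ i, a' i • b i) := by
        rw [map_sub, ← hf2t, map_sum]
        simp only [map_smul]
        rw [hf2]
        abel
      rw [h7]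
      exact Submodule.add_mem _ (hspanJ hs) h6
    · intro a ha
      rw [Fintype.sum_sum_type] at ha
      simp only [Sum.elim_inl, Sum.elim_inr] at ha
      have h1 : gs p d (fun i => if h : i < d then a (Sum.inr ⟨i, h⟩) else 0) ∈ I := by
        refine ⟨_, ha, ?_⟩
        rw [map_add, map_sum, map_sum]
        have h2 : ∀ i, rs r (a (Sum.inl i) • tl r (b i)) = 0 := by
          intro i
          rw [map_smul, rs_tl p r (hbN i), smul_zero]
        rw [Finset.sum_eq_zero (fun i _ => h2 i), zero_add]
        unfold gs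
        rw [Finset.sum_range]
        refine Finset.sum_congr rfl fun i _ => ?_
        rw [map_smul, rs_ef_zero]
        simp
      have h2 : ∀ i : Fin d, a (Sum.inr i) = 0 := by
        intro i
        have := hind _ h1 i i.2
        simpa using this
      have h3 : ∑ i, a (Sum.inl i) • b i ∈ J0 := by
        rw [hJ0]
        refine ⟨Submodule.sum_mem _ fun i _ => Submodule.smul_mem _ _ (hbN i), ?_⟩
        rw [map_sum]
        simp only [map_smul]
        simp only [h2, zero_smul, Finset.sum_const_zero, add_zero] at ha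
        exact ha
      have h4 := hbi _ h3
      funext i
      rcases i with i | i
      · exact congrFun h4 i
      · exact h2 i
    · -- counting
      have hfinZ0 : Finite (Zs J0) := hZ0fin
      have hequiv : (Zs J) ≃ (Σ x : Zs J0, {a : K // gs p (d + 1) c a + hy r G x.1 = 0}) :=
        { toFun := fun x =>
            ⟨⟨Fin.tail x.1, ((hZ (x.1 0) (Fin.tail x.1)).mp (by
                rw [Fin.cons_self_tail]; exact x.2)).1⟩,
              ⟨x.1 0, ((hZ (x.1 0) (Fin.tail x.1)).mp (by
                rw [Fin.cons_self_tail]; exact x.2)).2⟩⟩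
          invFun := fun y => ⟨Fin.cons y.2.1 y.1.1, (hZ _ _).mpr ⟨y.1.2, y.2.2⟩⟩
          left_inv := by
            intro x
            apply Subtype.ext
            exact Fin.cons_self_tail x.1
          right_inv := by
            rintro ⟨⟨x, hx⟩, ⟨a, ha⟩⟩
            rfl }
      rw [Nat.card_congr hequiv]
      have : Fintype (Zs J0) := Fintype.ofFinite _
      have : ∀ x : Zs J0, Finite {a : K // gs p (d + 1) c a + hy r G x.1 = 0} :=
        fun x => hfibfin _
      rw [Nat.card_sigma]
      simp only [hfib]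
      rw [Finset.sum_const, Finset.card_univ, ← Nat.card_eq_fintype_card, hcard, smul_eq_mul,
        Fintype.card_sum, Fintype.card_fin, pow_add]

end Pool.Agent.R369.Fad
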