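import Pool.Agent.R369.Fad.Model

/-!
Assembly: the exact form of the fixed point counts of a confined endomorphism.
-/

namespace Pool.Agent.R369.Fad

open Polynomial

variable {K : Type*} [Field K] [IsAlgClosed K] {p : ℕ} [hp : Fact p.Prime] [CharP K p]

/-- The set of roots of unity of order dividing `n`. -/
noncomputable def Rt (K : Type*) [Field K] (n : ℕ) : Finset K := by
  classical
  exact (X ^ n - 1 : K[X]).roots.toFinset

theorem X_pow_sub_one_ne (n : ℕ) (hn : n ≠ 0) : (X ^ n - 1 : K[X]) ≠ 0 :=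
  (monic_X_pow_sub_C (1 : K) hn).ne_zero

theorem mem_Rt {n : ℕ} (hn : n ≠ 0) (ζ : K) : ζ ∈ Rt K n ↔ ζ ^ n = 1 := by
  classical
  unfold Rt
  rw [Multiset.mem_toFinset, mem_roots (X_pow_sub_one_ne n hn), IsRoot.def]
  simp [sub_eq_zero]

/-- Sum over the roots with multiplicity. -/
theorem sum_roots (n : ℕ) (hn : n ≠ 0) (g : K → ℕ) :
    (((X ^ n - 1 : K[X]).roots).map g).sum = p ^ padicValNat p n * ∑ ζ ∈ Rt K n, g ζ ∧
    p ^ padicValNat p n * (Rt K n).card = n := by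
  classical
  set a := padicValNat p n with ha
  obtain ⟨m, hm⟩ : p ^ a ∣ n := pow_padicValNat_dvd
  have hpm : ¬ p ∣ m := by
    rintro ⟨l, rfl⟩
    have h1 : p ^ (a + 1) ∣ n := ⟨l, by rw [hm]; ring⟩
    have h2 := (padicValNat_dvd_iff_le hn).mp h1
    omega
  have hm0 : m ≠ 0 := by
    rintro rfl
    exact hpm (dvd_zero _)
  have hmK : (m : K) ≠ 0 := by
    intro h
    exact hpm ((CharP.cast_eq_zero_iff K p m).mp h)
  have hpow : (X ^ n - 1 : K[X]) = (X ^ m - 1) ^ p ^ a := by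
    rw [sub_pow_char_pow, one_pow, ← pow_mul, hm, mul_comm]
  have hsep : (X ^ m - 1 : K[X]).Separable := X_pow_sub_one_separable_iff.mpr hmK
  have hnd : (X ^ m - 1 : K[X]).roots.Nodup := nodup_roots hsep
  have hroots : (X ^ n - 1 : K[X]).roots = p ^ a • (X ^ m - 1 : K[X]).roots := by
    rw [hpow, roots_pow]
  have hRt : Rt K n = (X ^ m - 1 : K[X]).roots.toFinset := by
    unfold Rt
    rw [hroots, Multiset.toFinset_nsmul _ _ (pow_ne_zero _ hp.out.ne_zero)]
  have hval : (X ^ m - 1 : K[X]).roots.toFinset.val = (X ^ m - 1 : K[X]).roots := by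
    rw [Multiset.toFinset_val, hnd.dedup]
  constructor
  · rw [hroots, Multiset.map_nsmul, Multiset.sum_nsmul, smul_eq_mul, hRt]
    congr 1
    rw [Finset.sum_eq_multiset_sum, hval]
  · rw [hRt, Finset.card_def, hval]
    have hcard : (X ^ m - 1 : K[X]).roots.card = m := by
      rw [splits_iff_card_roots.mp (IsAlgClosed.splits (X ^ m - 1 : K[X])), ← C_1,
        natDegree_X_pow_sub_C]
    rw [hcard, hm]

theorem orderOf_coprime {ρ : K} (hρ : IsOfFinOrder ρ) : (orderOf ρ).Coprime p := by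
  have hpos : 0 < orderOf ρ := orderOf_pos_iff.mpr hρ
  rw [Nat.coprime_comm, Nat.Prime.coprime_iff_not_dvd hp.out]
  rintro ⟨k, hk⟩
  have h1 : (ρ ^ k) ^ p = 1 := by
    rw [← pow_mul, mul_comm, ← hk, pow_orderOf_eq_one]
  have h2 : ρ ^ k = 1 := by
    apply frobenius_inj K p
    rw [frobenius_def, h1, map_one]
  have h3 := orderOf_dvd_of_pow_eq_one h2
  have hk0 : 0 < k := by
    rcases Nat.eq_zero_or_pos k with h | h
    · rw [h, mul_zero] at hk
      omega
    · exact h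
  have h4 := Nat.le_of_dvd hk0 h3
  rw [hk] at h4
  have := hp.out.two_le
  nlinarith

/-- The exact shape of the fixed point counts. -/
theorem main (r : ℕ) (σ : (Fin r → K) → (Fin r → K))
    (hσ : ∀ f ∈ Nm (K := K) p r, (fun x => f (σ x)) ∈ Nm p r)
    (hconf : ∀ n, 1 ≤ n → {x : Fin r → K | σ^[n] x = x}.Finite) :
    ∃ (c : ℕ) (t : ℕ → ℕ) (d : ℕ), 1 ≤ d ∧ d.Coprime p ∧ (∀ n, 1 ≤ n → t n = t (Nat.gcd n d)) ∧
      ∀ n, 1 ≤ n → Nat.card {x : Fin r → K // σ^[n] x = x} * p ^ (t n * p ^ padicValNat p n) =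
        p ^ (c * n) := by
  classical
  set T := opT p r σ hσ with hT
  set D := datN (K := K) p r with hD
  have hcomm : ∀ k f, T (D.Φ k f) = D.Φ k (T f) := fun k f => opT_comm p r σ hσ k f
  -- finiteness and injectivity for the polynomials `X^n - 1`
  have hfin : ∀ n, 1 ≤ n → Module.Finite K (Nm (K := K) p r ⧸ LinearMap.range
      (aeval T (X ^ n - 1 : K[X]))) := fun n hn => (card_fix p r σ hσ n (hconf n hn)).1
  have hcomm2 : ∀ (n : ℕ) k f, aeval T (X ^ n - 1 : K[X]) (D.Φ k f) =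
      D.Φ k (aeval T (X ^ n - 1 : K[X]) f) := by
    intro n k f
    rw [D.Φ_aeval T hcomm]
    simp
  have hinj : ∀ n, 1 ≤ n → Function.Injective (aeval T (X ^ n - 1 : K[X])) :=
    fun n hn => D.inj_of_codim _ (hcomm2 n) (hfin n hn)
  have hdvd : ∀ n, 1 ≤ n → ∀ ζ ∈ (X ^ n - 1 : K[X]).roots, (X - C ζ : K[X]) ∣ X ^ n - 1 := by
    intro n hn ζ hζ
    exact dvd_iff_isRoot.mpr ((mem_roots (X_pow_sub_one_ne n (by omega))).mp hζ)
  obtain ⟨c, y, hy, hmax⟩ := D.exists_rank T hcomm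
  obtain ⟨Dn, hDn, hgood⟩ := D.exists_den T hcomm y hy hmax
  -- the codimension of the image of `T^n - 1`
  have hcod : ∀ n, 1 ≤ n → Module.finrank K (Nm (K := K) p r ⧸ LinearMap.range
      (aeval T (X ^ n - 1 : K[X]))) = p ^ padicValNat p n * ∑ ζ ∈ Rt K n, del T ζ := by
    intro n hn
    rw [← (sum_roots n (by omega) (del T)).1]
    have h1 : (X ^ n - 1 : K[X]) = (((X ^ n - 1 : K[X]).roots).map fun ζ => X - C ζ).prod :=
      (IsAlgClosed.splits (X ^ n - 1 : K[X])).eq_prod_roots_of_monic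
        (monic_X_pow_sub_C (1 : K) (by omega))
    have h2 := cod_prod T ((X ^ n - 1 : K[X]).roots)
      (fun ζ hζ => inj_of_dvd T (hdvd n hn ζ hζ) (hinj n hn))
    rw [← h1] at h2
    unfold cod at h2
    have := hfin n hn
    rw [Module.length_eq_finrank] at h2
    have h3 : ((X ^ n - 1 : K[X]).roots).map (fun ζ => Module.length K (Nm (K := K) p r ⧸
        LinearMap.range (aeval T (X - C ζ : K[X])))) =
        (((X ^ n - 1 : K[X]).roots).map (del T)).map (Nat.cast : ℕ → ℕ∞) := by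
      rw [Multiset.map_map]
      refine Multiset.map_congr rfl fun ζ hζ => ?_
      have := finite_of_dvd T (hdvd n hn ζ hζ) (hfin n hn)
      rw [Module.length_eq_finrank]
      rfl
    rw [h3, ← Nat.cast_multiset_sum] at h2
    exact_mod_cast h2
  -- the weights
  let w : K → ℕ := fun ζ => c - del T ζ
  have hw : ∀ n, 1 ≤ n → ∀ ζ ∈ Rt K n, del T ζ + w ζ = c := by
    intro n hn ζ hζ
    have h0 : ζ ∈ (X ^ n - 1 : K[X]).roots := by
      unfold Rt at hζ
      rwa [Multiset.mem_toFinset] at hζ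
    have := Dat.del_le T hmax ζ (inj_of_dvd T (hdvd n hn ζ h0) (hinj n hn))
      (finite_of_dvd T (hdvd n hn ζ h0) (hfin n hn))
    change del T ζ + (c - del T ζ) = c
    omega
  let S : Finset K := Dn.roots.toFinset.filter fun ρ => IsOfFinOrder ρ
  let d : ℕ := ∏ ρ ∈ S, orderOf ρ
  have hd0 : 1 ≤ d := by
    apply Nat.one_le_iff_ne_zero.mpr
    rw [Finset.prod_ne_zero_iff]
    intro ρ hρ
    exact (orderOf_pos_iff.mpr (Finset.mem_filter.mp hρ).2).ne'
  have hdp : d.Coprime p := by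
    apply Nat.Coprime.prod_left
    intro ρ hρ
    exact orderOf_coprime (Finset.mem_filter.mp hρ).2
  have hwd : ∀ n, 1 ≤ n → ∀ ζ : K, ζ ^ n = 1 → w ζ ≠ 0 → ζ ^ d = 1 := by
    intro n hn ζ hζ hwζ
    have h1 : del T ζ ≠ c := by
      intro h
      apply hwζ
      change c - del T ζ = 0
      omega
    have h2 : ∃ j : ℤ, Dn.eval (Fz p j ζ) = 0 := by
      by_contra h
      push Not at h
      exact h1 (hgood ζ h)
    obtain ⟨j, hj⟩ := h2
    have h3 : Fz p j ζ ^ n = 1 := by rw [← Fz_pow', hζ, Fz_one_right]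
    have h4 : Fz p j ζ ∈ S := by
      rw [Finset.mem_filter, Multiset.mem_toFinset, mem_roots hDn]
      exact ⟨hj, isOfFinOrder_iff_pow_eq_one.mpr ⟨n, by omega, h3⟩⟩
    have h5 : orderOf (Fz p j ζ) ∣ d := Finset.dvd_prod_of_mem _ h4
    have h6 : Fz p j ζ ^ d = 1 := orderOf_dvd_iff_pow_eq_one.mp h5
    apply Fz_inj p j
    rw [Fz_pow', h6, Fz_one_right]
  refine ⟨c, fun n => ∑ ζ ∈ Rt K n, w ζ, d, hd0, hdp, ?_, ?_⟩
  · intro n hn
    dsimp only
    have hg : Nat.gcd n d ≠ 0 := Nat.gcd_ne_zero_left (by omega)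
    symm
    apply Finset.sum_subset
    · intro ζ hζ
      rw [mem_Rt hg] at hζ
      rw [mem_Rt (by omega)]
      obtain ⟨k, hk⟩ := Nat.gcd_dvd_left n d
      rw [hk, pow_mul, hζ, one_pow]
    · intro ζ hζ hζ2
      rw [mem_Rt (by omega)] at hζ
      by_contra hwζ
      apply hζ2
      rw [mem_Rt hg]
      have h1 := hwd n hn ζ hζ hwζ
      rw [← orderOf_dvd_iff_pow_eq_one] at h1 hζ ⊢
      exact Nat.dvd_gcd hζ h1
  · intro n hn
    dsimp only
    rw [(card_fix p r σ hσ n (hconf n hn)).2, hcod n hn, ← pow_add]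
    congr 1
    rw [mul_comm (∑ ζ ∈ Rt K n, w ζ), ← mul_add, ← Finset.sum_add_distrib,
      Finset.sum_congr rfl (hw n hn), Finset.sum_const, smul_eq_mul, ← mul_assoc,
      (sum_roots (K := K) (p := p) n (by omega) (fun _ => 0)).2, mul_comm]

end Pool.Agent.R369.Fad
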