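import Pool.Agent.R369.Fad.Basic

/-!
Growth arguments for linear operators commuting with a semilinear automorphism.
-/

namespace Pool.Agent.R369.Fad

open Polynomial

/-- The abstract data: a space with a Frobenius-semilinear automorphism and a finite family
whose translates form a basis. -/
structure Dat (K : Type*) [Field K] [IsAlgClosed K] (p : ℕ) [Fact p.Prime] [CharP K p]
    (N : Type*) [AddCommGroup N] [Module K N] (r : ℕ) where
  Φ : ℤ → N → N
  Φ_add : ∀ k f g, Φ k (f + g) = Φ k f + Φ k g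
  Φ_smul : ∀ k (c : K) f, Φ k (c • f) = Fz p k c • Φ k f
  Φ_comp : ∀ k l f, Φ k (Φ l f) = Φ (k + l) f
  Φ_zero : ∀ f, Φ 0 f = f
  e : Fin r → N
  ind : LinearIndependent K (fun ij : ℤ × Fin r => Φ ij.1 (e ij.2))
  spn : ∀ f : N, f ∈ Submodule.span K (Set.range fun ij : ℤ × Fin r => Φ ij.1 (e ij.2))
  indf : ∀ f : N, f ≠ 0 → LinearIndependent K (fun k : ℤ => Φ k f)

variable {K : Type*} [Field K] [IsAlgClosed K] {p : ℕ} [hp : Fact p.Prime] [CharP K p]
variable {N : Type*} [AddCommGroup N] [Module K N] {r : ℕ}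

namespace Dat

variable (D : Dat K p N r)

theorem Φ_z (k : ℤ) : D.Φ k 0 = 0 := by
  have := D.Φ_smul k 0 0
  rwa [zero_smul, Fz_zero_right, zero_smul] at this

/-- The filtration. -/
def Nb (b : ℕ) : Submodule K N :=
  Submodule.span K (Set.range fun ij : ((Finset.Icc (-(b : ℤ)) b) ×ˢ (Finset.univ : Finset (Fin r)) :
    Finset (ℤ × Fin r)) => D.Φ ij.1.1 (D.e ij.1.2))

theorem finrank_Nb (b : ℕ) : Module.finrank K (D.Nb b) = (2 * b + 1) * r := by
  unfold Nb
  rw [finrank_span_eq_card]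
  · rw [Fintype.card_coe, Finset.card_product, Int.card_Icc, Finset.card_univ, Fintype.card_fin]
    congr 1
    omega
  · exact D.ind.comp _ Subtype.val_injective

instance (b : ℕ) : FiniteDimensional K (D.Nb b) := by
  unfold Nb
  exact FiniteDimensional.span_of_finite K (Set.finite_range _)

theorem gen_mem {b : ℕ} {i : ℤ} (hi : i.natAbs ≤ b) (j : Fin r) : D.Φ i (D.e j) ∈ D.Nb b := by
  refine Submodule.subset_span ⟨⟨(i, j), ?_⟩, rfl⟩
  rw [Finset.mem_product]
  refine ⟨?_, Finset.mem_univ _⟩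
  rw [Finset.mem_Icc]
  dsimp only
  omega

/-- Induction principle for the filtration. -/
theorem Nb_le {b : ℕ} {S : Submodule K N}
    (h : ∀ (i : ℤ) (j : Fin r), i.natAbs ≤ b → D.Φ i (D.e j) ∈ S) : D.Nb b ≤ S := by
  unfold Nb
  rw [Submodule.span_le]
  rintro _ ⟨⟨⟨i, j⟩, hij⟩, rfl⟩
  rw [Finset.mem_product, Finset.mem_Icc] at hij
  refine h i j ?_
  have := hij.1
  dsimp only at this
  omega

theorem Nb_mono {b b' : ℕ} (h : b ≤ b') : D.Nb b ≤ D.Nb b' :=
  D.Nb_le fun _ j hi => D.gen_mem (hi.trans h) j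

theorem exists_mem (f : N) : ∃ b, f ∈ D.Nb b := by
  have hf := D.spn f
  induction hf using Submodule.span_induction with
  | mem g hg =>
    obtain ⟨⟨i, j⟩, rfl⟩ := hg
    exact ⟨i.natAbs, D.gen_mem le_rfl j⟩
  | zero => exact ⟨0, Submodule.zero_mem _⟩
  | add g h _ _ hg hh =>
    obtain ⟨b, hb⟩ := hg
    obtain ⟨c, hc⟩ := hh
    exact ⟨max b c, Submodule.add_mem _ (D.Nb_mono (le_max_left _ _) hb)
      (D.Nb_mono (le_max_right _ _) hc)⟩
  | smul a g _ hg =>
    obtain ⟨b, hb⟩ := hg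
    exact ⟨b, Submodule.smul_mem _ _ hb⟩

theorem exists_mem_fin {ι : Type*} [Finite ι] (f : ι → N) : ∃ b, ∀ i, f i ∈ D.Nb b := by
  have := Fintype.ofFinite ι
  choose b hb using fun i => D.exists_mem (f i)
  exact ⟨Finset.univ.sup b, fun i => D.Nb_mono (Finset.le_sup (Finset.mem_univ i)) (hb i)⟩

theorem Φ_sum {ι : Type*} (k : ℤ) (s : Finset ι) (f : ι → N) :
    D.Φ k (∑ i ∈ s, f i) = ∑ i ∈ s, D.Φ k (f i) := by
  classical
  induction s using Finset.induction_on with
  | empty => simp [Φ_z]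
  | insert i s hi ih => rw [Finset.sum_insert hi, Finset.sum_insert hi, D.Φ_add, ih]

/-- Semilinear span induction. -/
theorem Φ_span {s : Set N} {k : ℤ} {S : Submodule K N} (h : ∀ f ∈ s, D.Φ k f ∈ S) {f : N}
    (hf : f ∈ Submodule.span K s) : D.Φ k f ∈ S := by
  induction hf using Submodule.span_induction with
  | mem g hg => exact h g hg
  | zero => rw [D.Φ_z]; exact Submodule.zero_mem _
  | add g h _ _ hg hh => rw [D.Φ_add]; exact Submodule.add_mem _ hg hh
  | smul a g _ hg => rw [D.Φ_smul]; exact Submodule.smul_mem _ _ hg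

theorem Φ_Nb {b : ℕ} (k : ℤ) {f : N} (hf : f ∈ D.Nb b) : D.Φ k f ∈ D.Nb (b + k.natAbs) := by
  unfold Nb at hf
  refine D.Φ_span ?_ hf
  rintro _ ⟨⟨⟨i, j⟩, hij⟩, rfl⟩
  rw [Finset.mem_product, Finset.mem_Icc] at hij
  dsimp only
  rw [D.Φ_comp]
  apply D.gen_mem
  have := hij.1
  dsimp only at this
  omega

/-- An operator commuting with `Φ` has bounded degree. -/
theorem exists_deg (T : Module.End K N) (hT : ∀ k f, T (D.Φ k f) = D.Φ k (T f)) :
    ∃ s : ℕ, ∀ b f, f ∈ D.Nb b → T f ∈ D.Nb (b + s) := by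
  obtain ⟨s, hs⟩ := D.exists_mem_fin (fun j => T (D.e j))
  refine ⟨s, fun b f hf => ?_⟩
  have : D.Nb b ≤ (D.Nb (b + s)).comap T := by
    refine D.Nb_le fun i j hi => ?_
    rw [Submodule.mem_comap, hT]
    exact D.Nb_mono (by omega) (D.Φ_Nb i (hs j))
  exact this hf

/-- Almost all of the filtration is reached by an operator with image of finite codimension. -/
theorem exists_reach (T : Module.End K N) (hT : ∀ k f, T (D.Φ k f) = D.Φ k (T f))
    (hfin : Module.Finite K (N ⧸ LinearMap.range T)) :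
    ∃ (W : Submodule K N) (_ : FiniteDimensional K W) (c : ℕ), ∀ b,
      D.Nb b ≤ W ⊔ (D.Nb (c + b)).map T := by
  obtain ⟨W, hW⟩ := Submodule.exists_isCompl (LinearMap.range T)
  have hWfin : FiniteDimensional K W :=
    Module.Finite.equiv (Submodule.quotientEquivOfIsCompl _ _ hW)
  have hdec : ∀ f : N, ∃ w ∈ W, ∃ u : N, f = w + T u := by
    intro f
    have : f ∈ LinearMap.range T ⊔ W := by rw [hW.sup_eq_top]; trivial
    obtain ⟨_, ⟨u, rfl⟩, w, hw, h⟩ := Submodule.mem_sup.mp this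
    exact ⟨w, hw, u, by rw [← h, add_comm]⟩
  have hW' := Module.finBasis K W
  set m := Module.finrank K W with hm
  have hspan : Submodule.span K (Set.range fun i : Fin m => (hW' i : N)) = W := by
    have h1 := hW'.span_eq
    have h2 := congrArg (Submodule.map W.subtype) h1
    rw [Submodule.map_span, Submodule.map_top, Submodule.range_subtype, ← Set.range_comp] at h2
    exact h2
  choose w1 hw1 u1 h1 using fun i : Fin m => hdec (D.Φ 1 (hW' i : N))
  choose w2 hw2 u2 h2 using fun i : Fin m => hdec (D.Φ (-1) (hW' i : N))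
  choose w3 hw3 u3 h3 using fun j : Fin r => hdec (D.e j)
  obtain ⟨c1, hc1⟩ := D.exists_mem_fin u1
  obtain ⟨c2, hc2⟩ := D.exists_mem_fin u2
  obtain ⟨c3, hc3⟩ := D.exists_mem_fin u3
  let c := max c1 (max c2 c3)
  have hcc1 : c1 ≤ c := le_max_left _ _
  have hcc2 : c2 ≤ c := (le_max_left _ _).trans (le_max_right _ _)
  have hcc3 : c3 ≤ c := (le_max_right _ _).trans (le_max_right _ _)
  refine ⟨W, hWfin, c, ?_⟩
  have hmono : ∀ {a b : ℕ}, a ≤ b → W ⊔ (D.Nb a).map T ≤ W ⊔ (D.Nb b).map T :=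
    fun h => sup_le_sup le_rfl (Submodule.map_mono (D.Nb_mono h))
  have hΦW : ∀ k : ℤ, (k = 1 ∨ k = -1) → ∀ w ∈ W, D.Φ k w ∈ W ⊔ (D.Nb c).map T := by
    rintro k (rfl | rfl) w hw
    · rw [← hspan] at hw
      refine D.Φ_span ?_ hw
      rintro _ ⟨i, rfl⟩
      dsimp only
      rw [h1]
      exact Submodule.add_mem_sup (hw1 i) ⟨u1 i, D.Nb_mono hcc1 (hc1 i), rfl⟩
    · rw [← hspan] at hw
      refine D.Φ_span ?_ hw
      rintro _ ⟨i, rfl⟩
      dsimp only
      rw [h2]
      exact Submodule.add_mem_sup (hw2 i) ⟨u2 i, D.Nb_mono hcc2 (hc2 i), rfl⟩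
  have hstep : ∀ k : ℤ, (k = 1 ∨ k = -1) → ∀ a : ℕ, ∀ f ∈ W ⊔ (D.Nb (c + a)).map T,
      D.Φ k f ∈ W ⊔ (D.Nb (c + (a + 1))).map T := by
    intro k hk a f hf
    obtain ⟨w, hw, _, ⟨u, hu, rfl⟩, rfl⟩ := Submodule.mem_sup.mp hf
    rw [D.Φ_add]
    refine Submodule.add_mem _ (hmono (by omega) (hΦW k hk w hw)) ?_
    refine Submodule.mem_sup_right ⟨D.Φ k u, D.Nb_mono ?_ (D.Φ_Nb k hu), hT k u⟩
    rcases hk with rfl | rfl <;> simp
  have hpos : ∀ (a : ℕ) (j : Fin r), D.Φ (a : ℤ) (D.e j) ∈ W ⊔ (D.Nb (c + a)).map T := by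
    intro a j
    induction a with
    | zero =>
      rw [Nat.cast_zero, D.Φ_zero, h3]
      exact Submodule.add_mem_sup (hw3 j) ⟨u3 j, D.Nb_mono hcc3 (hc3 j), rfl⟩
    | succ a ih =>
      have := hstep 1 (Or.inl rfl) a _ ih
      rw [D.Φ_comp] at this
      have e1 : (1 : ℤ) + a = ((a + 1 : ℕ) : ℤ) := by push_cast; ring
      rwa [e1] at this
  have hneg : ∀ (a : ℕ) (j : Fin r), D.Φ (-(a : ℤ)) (D.e j) ∈ W ⊔ (D.Nb (c + a)).map T := by
    intro a j
    induction a with
    | zero =>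
      rw [Nat.cast_zero, neg_zero, D.Φ_zero, h3]
      exact Submodule.add_mem_sup (hw3 j) ⟨u3 j, D.Nb_mono hcc3 (hc3 j), rfl⟩
    | succ a ih =>
      have := hstep (-1) (Or.inr rfl) a _ ih
      rw [D.Φ_comp] at this
      have e1 : (-1 : ℤ) + -(a : ℤ) = -((a + 1 : ℕ) : ℤ) := by push_cast; ring
      rwa [e1] at this
  intro b
  refine D.Nb_le fun i j hi => ?_
  rcases le_total 0 i with h | h
  · obtain ⟨n, rfl⟩ := Int.eq_ofNat_of_zero_le h
    exact hmono (by omega) (hpos n j)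
  · obtain ⟨n, hn⟩ := Int.eq_ofNat_of_zero_le (neg_nonneg.mpr h)
    have : i = -(n : ℤ) := by omega
    subst this
    exact hmono (by omega) (hneg n j)

/-- An operator commuting with `Φ` whose image has finite codimension is injective. -/
theorem inj_of_codim (T : Module.End K N) (hT : ∀ k f, T (D.Φ k f) = D.Φ k (T f))
    (hfin : Module.Finite K (N ⧸ LinearMap.range T)) : Function.Injective T := by
  rw [injective_iff_map_eq_zero]
  intro f hf
  by_contra hf0
  obtain ⟨b0, hb0⟩ := D.exists_mem f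
  obtain ⟨W, hW, c, hreach⟩ := D.exists_reach T hT hfin
  set w := Module.finrank K W with hw
  set b := w + r * c + b0 with hb
  set S := D.Nb (c + b) with hS
  -- dimension of the kernel
  set L := T.domRestrict S with hL
  have hker : 2 * (c + b - b0) + 1 ≤ Module.finrank K (LinearMap.ker L) := by
    have hmem : ∀ k : (Finset.Icc (-((c + b - b0 : ℕ) : ℤ)) ((c + b - b0 : ℕ) : ℤ)),
        D.Φ k.1 f ∈ S := by
      rintro ⟨k, hk⟩
      rw [Finset.mem_Icc] at hk
      exact D.Nb_mono (by omega) (D.Φ_Nb k hb0)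
    have hmem2 : ∀ k : (Finset.Icc (-((c + b - b0 : ℕ) : ℤ)) ((c + b - b0 : ℕ) : ℤ)),
        (⟨D.Φ k.1 f, hmem k⟩ : S) ∈ LinearMap.ker L := by
      intro k
      rw [LinearMap.mem_ker, hL, LinearMap.domRestrict_apply]
      change T (D.Φ k.1 f) = 0
      rw [hT, hf, D.Φ_z]
    have hli : LinearIndependent K
        (fun k : (Finset.Icc (-((c + b - b0 : ℕ) : ℤ)) ((c + b - b0 : ℕ) : ℤ)) =>
          (⟨⟨D.Φ k.1 f, hmem k⟩, hmem2 k⟩ : LinearMap.ker L)) := by
      apply LinearIndependent.of_comp (S.subtype ∘ₗ (LinearMap.ker L).subtype)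
      exact (D.indf f hf0).comp _ Subtype.val_injective
    have := hli.fintype_card_le_finrank
    rw [Fintype.card_coe, Int.card_Icc] at this
    omega
  have hrn := LinearMap.finrank_range_add_finrank_ker L
  rw [D.finrank_Nb] at hrn
  have hrange : LinearMap.range L = S.map T := by
    rw [hL, LinearMap.range_domRestrict]
  rw [hrange] at hrn
  have h1 : Module.finrank K (D.Nb b) ≤ w + Module.finrank K (S.map T) := by
    calc Module.finrank K (D.Nb b) ≤ Module.finrank K (W ⊔ S.map T : Submodule K N) :=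
          Submodule.finrank_mono (hreach b)
      _ ≤ _ := Submodule.finrank_add_le_finrank_add_finrank _ _
  rw [D.finrank_Nb] at h1
  have h2 : c + b - b0 = c + w + r * c := by omega
  rw [h2] at hker
  have h3 : (2 * (c + b) + 1) * r = (2 * b + 1) * r + 2 * (r * c) := by ring
  rw [h3] at hrn
  omega

/-- Independence over the polynomial ring. -/
def PInd {ι : Type*} [Fintype ι] (T : Module.End K N) (y : ι → N) : Prop :=
  ∀ P : ι → K[X], ∑ i, aeval T (P i) (y i) = 0 → ∀ i, P i = 0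

/-- Families independent over the polynomial ring have bounded size. -/
theorem exists_bound (T : Module.End K N) (hT : ∀ k f, T (D.Φ k f) = D.Φ k (T f)) :
    ∃ R : ℕ, ∀ (k : ℕ) (y : Fin k → N), PInd T y → k ≤ R := by
  obtain ⟨s, hs⟩ := D.exists_deg T hT
  refine ⟨2 * r * s, fun k y hy => ?_⟩
  by_contra hk
  rw [not_le] at hk
  obtain ⟨b0, hb0⟩ := D.exists_mem_fin y
  set L := r * (2 * b0 + 1) with hL
  have hpow : ∀ l i, (T ^ l) (y i) ∈ D.Nb (b0 + l * s) := by
    intro l i
    induction l with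
    | zero => simpa using hb0 i
    | succ l ih =>
      rw [pow_succ']
      have := hs _ _ ih
      have e1 : b0 + (l + 1) * s = b0 + l * s + s := by ring
      rw [e1]
      exact this
  have hmem : ∀ li : Fin (L + 1) × Fin k, (T ^ (li.1 : ℕ)) (y li.2) ∈ D.Nb (b0 + L * s) := by
    rintro ⟨l, i⟩
    refine D.Nb_mono ?_ (hpow l i)
    have : (l : ℕ) * s ≤ L * s := Nat.mul_le_mul_right _ (by omega)
    omega
  have hli : LinearIndependent K
      (fun li : Fin (L + 1) × Fin k => (⟨_, hmem li⟩ : D.Nb (b0 + L * s))) := by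
    apply LinearIndependent.of_comp (D.Nb (b0 + L * s)).subtype
    rw [Fintype.linearIndependent_iff]
    intro g hg
    simp only [Function.comp_apply, Submodule.subtype_apply] at hg
    have h1 : ∑ i : Fin k, aeval T (∑ l : Fin (L + 1), C (g (l, i)) * X ^ (l : ℕ)) (y i) = 0 := by
      rw [← hg, Fintype.sum_prod_type_right]
      refine Finset.sum_congr rfl fun i _ => ?_
      rw [map_sum, LinearMap.sum_apply]
      refine Finset.sum_congr rfl fun l _ => ?_
      rw [map_mul, aeval_C, map_pow, aeval_X]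
      rfl
    have h2 := hy _ h1
    rintro ⟨l, i⟩
    have h3 := congrArg (fun P => Polynomial.coeff P (l : ℕ)) (h2 i)
    simp only [finsetSum_coeff, coeff_C_mul, coeff_X_pow, coeff_zero] at h3
    rw [Finset.sum_eq_single l] at h3
    · simpa using h3
    · intro l' _ hl'
      rw [if_neg, mul_zero]
      intro h
      exact hl' (Fin.ext h.symm)
    · intro h
      exact absurd (Finset.mem_univ _) h
  have hcard := hli.fintype_card_le_finrank
  rw [D.finrank_Nb, Fintype.card_prod, Fintype.card_fin, Fintype.card_fin] at hcard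
  have h4 : (L + 1) * (2 * r * s + 1) ≤ (L + 1) * k := Nat.mul_le_mul_left _ hk
  have h5 : (L + 1) * (2 * r * s + 1) = 2 * r * s * L + 2 * r * s + L + 1 := by ring
  have h6 : (2 * (b0 + L * s) + 1) * r = 2 * r * s * L + L := by
    rw [hL]; ring
  omega

end Dat

end Pool.Agent.R369.Fad
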