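import Pool.Agent.R369.Fad.Growth

/-!
Codimensions of the images of polynomials in an operator commuting with `Φ`.
-/

namespace Pool.Agent.R369.Fad

open Polynomial

variable {K : Type*} [Field K] [IsAlgClosed K] {p : ℕ} [hp : Fact p.Prime] [CharP K p]
variable {N : Type*} [AddCommGroup N] [Module K N] {r : ℕ}

/-- A family giving a basis of a quotient. -/
theorem finrank_of_family {K : Type*} [Field K] {N : Type*} [AddCommGroup N] [Module K N]
    (R : Submodule K N) {ι : Type*} [Fintype ι] (b : ι → N)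
    (hs : ∀ f : N, ∃ a : ι → K, f - ∑ i, a i • b i ∈ R)
    (hi : ∀ a : ι → K, ∑ i, a i • b i ∈ R → a = 0) :
    Module.Finite K (N ⧸ R) ∧ Module.finrank K (N ⧸ R) = Fintype.card ι := by
  let L : (ι → K) →ₗ[K] (N ⧸ R) := R.mkQ ∘ₗ Fintype.linearCombination K b
  have hL : ∀ a, L a = R.mkQ (∑ i, a i • b i) := by
    intro a
    simp [L, Fintype.linearCombination_apply]
  have hinj : Function.Injective L := by
    rw [injective_iff_map_eq_zero]
    intro a ha
    rw [hL, Submodule.mkQ_apply, Submodule.Quotient.mk_eq_zero] at ha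
    exact hi a ha
  have hsurj : Function.Surjective L := by
    intro q
    obtain ⟨f, rfl⟩ := R.mkQ_surjective q
    obtain ⟨a, ha⟩ := hs f
    refine ⟨a, ?_⟩
    rw [hL, Submodule.mkQ_apply, Submodule.mkQ_apply, Submodule.Quotient.eq, ← neg_mem_iff]
    convert ha using 1
    abel
  let E := LinearEquiv.ofBijective L ⟨hinj, hsurj⟩
  refine ⟨Module.Finite.equiv E, ?_⟩
  rw [← E.finrank_eq, Module.finrank_fintype_fun_eq_card]

/-- The codimension of the image. -/
noncomputable def cod {K : Type*} [Field K] {N : Type*} [AddCommGroup N] [Module K N]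
    (A : Module.End K N) : ℕ∞ :=
  Module.length K (N ⧸ LinearMap.range A)

theorem cod_mul {K : Type*} [Field K] {N : Type*} [AddCommGroup N] [Module K N]
    (A B : Module.End K N) (hA : Function.Injective A) :
    cod (A * B) = cod B + cod A := by
  unfold cod
  have h1 : LinearMap.range B ≤ (LinearMap.range (A * B)).comap A := by
    rintro _ ⟨u, rfl⟩
    exact ⟨u, rfl⟩
  have h2 : LinearMap.range (A * B) ≤ (LinearMap.range A).comap LinearMap.id := by
    rintro _ ⟨u, rfl⟩
    exact ⟨B u, rfl⟩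
  apply Module.length_eq_add_of_exact
    (Submodule.mapQ (LinearMap.range B) (LinearMap.range (A * B)) A h1)
    (Submodule.mapQ (LinearMap.range (A * B)) (LinearMap.range A) LinearMap.id h2)
  · rw [injective_iff_map_eq_zero]
    intro q hq
    obtain ⟨f, rfl⟩ := (LinearMap.range B).mkQ_surjective q
    rw [Submodule.mkQ_apply, Submodule.mapQ_apply, Submodule.Quotient.mk_eq_zero] at hq
    obtain ⟨u, hu⟩ := hq
    rw [Submodule.mkQ_apply, Submodule.Quotient.mk_eq_zero]
    exact ⟨u, hA hu⟩
  · intro q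
    obtain ⟨f, rfl⟩ := (LinearMap.range A).mkQ_surjective q
    exact ⟨Submodule.Quotient.mk f, rfl⟩
  · intro q
    obtain ⟨f, rfl⟩ := (LinearMap.range (A * B)).mkQ_surjective q
    rw [Submodule.mkQ_apply, Submodule.mapQ_apply, LinearMap.id_apply,
      Submodule.Quotient.mk_eq_zero]
    constructor
    · rintro ⟨u, rfl⟩
      exact ⟨Submodule.Quotient.mk u, rfl⟩
    · rintro ⟨q', hq'⟩
      obtain ⟨u, rfl⟩ := (LinearMap.range B).mkQ_surjective q'
      rw [Submodule.mkQ_apply, Submodule.mapQ_apply, Submodule.Quotient.eq] at hq'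
      obtain ⟨v, hv⟩ := hq'
      refine ⟨u - B v, ?_⟩
      rw [map_sub]
      have : A (B v) = A u - f := hv
      rw [this]
      abel

theorem cod_one {K : Type*} [Field K] {N : Type*} [AddCommGroup N] [Module K N] :
    cod (1 : Module.End K N) = 0 := by
  unfold cod
  rw [Module.length_eq_zero_iff]
  have : LinearMap.range (1 : Module.End K N) = ⊤ := by
    rw [LinearMap.range_eq_top]
    exact fun x => ⟨x, rfl⟩
  rw [this]
  exact Submodule.Quotient.subsingleton_iff.mpr rfl

theorem cod_prod {K : Type*} [Field K] {N : Type*} [AddCommGroup N] [Module K N]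
    (T : Module.End K N) (s : Multiset K)
    (h : ∀ ζ ∈ s, Function.Injective (aeval T (X - C ζ : K[X]))) :
    cod (aeval T (s.map fun ζ => (X - C ζ : K[X])).prod) =
      (s.map fun ζ => cod (aeval T (X - C ζ : K[X]))).sum := by
  induction s using Multiset.induction_on with
  | empty => simp [cod_one]
  | cons a s ih =>
    rw [Multiset.map_cons, Multiset.prod_cons, map_mul,
      cod_mul _ _ (h a (Multiset.mem_cons_self a s)),
      ih (fun ζ hζ => h ζ (Multiset.mem_cons_of_mem hζ)), Multiset.map_cons, Multiset.sum_cons,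
      add_comm]

/-- The codimension at `ζ`. -/
noncomputable def del {K : Type*} [Field K] {N : Type*} [AddCommGroup N] [Module K N]
    (T : Module.End K N) (ζ : K) : ℕ :=
  Module.finrank K (N ⧸ LinearMap.range (aeval T (X - C ζ : K[X])))

theorem inj_of_dvd {K : Type*} [Field K] {N : Type*} [AddCommGroup N] [Module K N]
    (T : Module.End K N) {P Q : K[X]} (h : P ∣ Q) (hQ : Function.Injective (aeval T Q)) :
    Function.Injective (aeval T P) := by
  obtain ⟨R, rfl⟩ := h
  rw [mul_comm, map_mul] at hQ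
  exact Function.Injective.of_comp (f := aeval T R) hQ

theorem finite_of_dvd {K : Type*} [Field K] {N : Type*} [AddCommGroup N] [Module K N]
    (T : Module.End K N) {P Q : K[X]} (h : P ∣ Q)
    (hQ : Module.Finite K (N ⧸ LinearMap.range (aeval T Q))) :
    Module.Finite K (N ⧸ LinearMap.range (aeval T P)) := by
  obtain ⟨R, rfl⟩ := h
  have h2 : LinearMap.range (aeval T (P * R)) ≤
      (LinearMap.range (aeval T P)).comap LinearMap.id := by
    rintro _ ⟨u, rfl⟩
    rw [map_mul]
    exact ⟨aeval T R u, rfl⟩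
  refine Module.Finite.of_surjective (Submodule.mapQ _ _ LinearMap.id h2) ?_
  intro q
  obtain ⟨f, rfl⟩ := (LinearMap.range (aeval T P)).mkQ_surjective q
  exact ⟨Submodule.Quotient.mk f, rfl⟩

/-- Division by `X - ζ`. -/
theorem exists_div {K : Type*} [Field K] (ζ : K) (P : K[X]) :
    P = C (P.eval ζ) + (X - C ζ) * (P /ₘ (X - C ζ)) := by
  have := modByMonic_add_div P (X - C ζ)
  rw [modByMonic_X_sub_C_eq_C_eval] at this
  exact this.symm

/-- Families independent modulo `T - ζ` are independent over the polynomial ring. -/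
theorem PInd_of_quot {K : Type*} [Field K] {N : Type*} [AddCommGroup N] [Module K N]
    (T : Module.End K N) (ζ : K) (hT : Function.Injective (aeval T (X - C ζ : K[X])))
    {k : ℕ} (e : Fin k → N)
    (he : ∀ a : Fin k → K, ∑ i, a i • e i ∈ LinearMap.range (aeval T (X - C ζ : K[X])) → a = 0) :
    ∀ P : Fin k → K[X], ∑ i, aeval T (P i) (e i) = 0 → ∀ i, P i = 0 := by
  have key : ∀ (n : ℕ) (P : Fin k → K[X]), (∀ i, (P i).natDegree ≤ n) →
      ∑ i, aeval T (P i) (e i) = 0 → ∀ i, P i = 0 := by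
    intro n
    induction n with
    | zero =>
      intro P hP hsum i
      have h1 : ∀ i, P i = C ((P i).coeff 0) := fun i => eq_C_of_natDegree_le_zero (hP i)
      have h2 : (fun i => (P i).coeff 0) = 0 := by
        apply he
        have : ∑ i, (P i).coeff 0 • e i = 0 := by
          rw [← hsum]
          refine Finset.sum_congr rfl fun i _ => ?_
          conv_rhs => rw [h1 i]
          rw [aeval_C]
          rfl
        rw [this]
        exact Submodule.zero_mem _
      rw [h1 i, congrFun h2 i, Pi.zero_apply, C_0]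
    | succ n ih =>
      intro P hP hsum
      have hdec : ∑ i, aeval T (P i) (e i) = ∑ i, (P i).eval ζ • e i +
          aeval T (X - C ζ : K[X]) (∑ i, aeval T (P i /ₘ (X - C ζ)) (e i)) := by
        rw [map_sum, ← Finset.sum_add_distrib]
        refine Finset.sum_congr rfl fun i _ => ?_
        conv_lhs => rw [exists_div ζ (P i)]
        rw [map_add, map_mul, aeval_C]
        rfl
      have h2 : (fun i => (P i).eval ζ) = 0 := by
        apply he
        rw [hsum] at hdec
        refine ⟨-∑ i, aeval T (P i /ₘ (X - C ζ)) (e i), ?_⟩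
        rw [map_neg]
        exact (eq_neg_of_add_eq_zero_left hdec.symm).symm
      have h3 : ∑ i, aeval T (P i /ₘ (X - C ζ)) (e i) = 0 := by
        apply hT
        rw [map_zero, ← hsum, hdec]
        have : ∑ i, (P i).eval ζ • e i = 0 := by
          refine Finset.sum_eq_zero fun i _ => ?_
          have := congrFun h2 i
          dsimp only [Pi.zero_apply] at this
          rw [this, zero_smul]
        rw [this, zero_add]
      have h4 := ih (fun i => P i /ₘ (X - C ζ)) (fun i => by
        rw [natDegree_divByMonic _ (monic_X_sub_C ζ), natDegree_X_sub_C]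
        have := hP i
        omega) h3
      intro i
      rw [exists_div ζ (P i), h4 i, mul_zero, add_zero]
      have := congrFun h2 i
      dsimp only [Pi.zero_apply] at this
      rw [this, C_0]
  intro P
  obtain ⟨n, hn⟩ : ∃ n, ∀ i, (P i).natDegree ≤ n :=
    ⟨Finset.univ.sup fun i => (P i).natDegree,
      fun i => Finset.le_sup (f := fun i => (P i).natDegree) (Finset.mem_univ i)⟩
  exact key n P hn

namespace Dat

variable (D : Dat K p N r)

/-- The power of Frobenius as a ring homomorphism. -/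
noncomputable def FH (k : ℤ) : K →+* K := (((Fr p : K ≃+* K) ^ k : RingAut K) : K ≃+* K).toRingHom

theorem FH_apply (k : ℤ) (x : K) : FH (p := p) k x = Fz p k x := rfl

theorem Φ_aeval (T : Module.End K N) (hT : ∀ k f, T (D.Φ k f) = D.Φ k (T f)) (k : ℤ) (P : K[X])
    (u : N) : D.Φ k (aeval T P u) = aeval T (P.map (FH (p := p) k)) (D.Φ k u) := by
  have hpow : ∀ n u, D.Φ k ((T ^ n) u) = (T ^ n) (D.Φ k u) := by
    intro n
    induction n with
    | zero => intro u; simp
    | succ n ih =>
      intro u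
      rw [pow_succ, Module.End.mul_apply, ih, Module.End.mul_apply, hT]
  induction P using Polynomial.induction_on' with
  | add P Q hP hQ =>
    rw [Polynomial.map_add, map_add, map_add, LinearMap.add_apply, D.Φ_add, hP, hQ,
      LinearMap.add_apply]
  | monomial n a =>
    rw [Polynomial.map_monomial, aeval_monomial, aeval_monomial]
    change D.Φ k (a • (T ^ n) u) = (FH (p := p) k a) • (T ^ n) (D.Φ k u)
    rw [D.Φ_smul, hpow, FH_apply]

/-- The maximal rank together with a maximal family. -/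
theorem exists_rank (T : Module.End K N) (hT : ∀ k f, T (D.Φ k f) = D.Φ k (T f)) :
    ∃ (c : ℕ) (y : Fin c → N), PInd T y ∧ ∀ (k : ℕ) (z : Fin k → N), PInd T z → k ≤ c := by
  classical
  obtain ⟨R, hR⟩ := D.exists_bound T hT
  let Pr : ℕ → Prop := fun k => ∃ z : Fin k → N, PInd T z
  have h0 : Pr 0 := ⟨fun i => i.elim0, fun P _ i => i.elim0⟩
  obtain ⟨y, hy⟩ : Pr (Nat.findGreatest Pr R) := Nat.findGreatest_spec (Nat.zero_le R) h0
  exact ⟨_, y, hy, fun k z hz => Nat.le_findGreatest (hR k z hz) ⟨z, hz⟩⟩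

theorem exists_dep (T : Module.End K N) {c : ℕ} (y : Fin c → N) (hy : PInd T y)
    (hmax : ∀ (k : ℕ) (z : Fin k → N), PInd T z → k ≤ c) (u : N) :
    ∃ Q : K[X], Q ≠ 0 ∧ ∃ P : Fin c → K[X], aeval T Q u = ∑ i, aeval T (P i) (y i) := by
  have h1 : ¬ PInd T (Fin.cons u y : Fin (c + 1) → N) := by
    intro h
    have := hmax _ _ h
    omega
  unfold PInd at h1
  push Not at h1
  obtain ⟨P, hP, i, hi⟩ := h1
  rw [Fin.sum_univ_succ] at hP
  simp only [Fin.cons_zero, Fin.cons_succ] at hP
  refine ⟨P 0, ?_, fun i => -P i.succ, ?_⟩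
  · intro h0
    rw [h0, map_zero, LinearMap.zero_apply, zero_add] at hP
    have h2 := hy _ hP
    refine hi ?_
    refine Fin.cases h0 (fun j => h2 j) i
  · have h3 : ∑ i : Fin c, aeval T (-P i.succ) (y i) = -∑ i : Fin c, aeval T (P i.succ) (y i) := by
      rw [← Finset.sum_neg_distrib]
      refine Finset.sum_congr rfl fun i _ => ?_
      rw [map_neg, LinearMap.neg_apply]
    rw [h3]
    exact eq_neg_of_add_eq_zero_left hP

theorem del_le (T : Module.End K N) {c : ℕ}
    (hmax : ∀ (k : ℕ) (z : Fin k → N), PInd T z → k ≤ c) (ζ : K)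
    (hinj : Function.Injective (aeval T (X - C ζ : K[X])))
    (hfin : Module.Finite K (N ⧸ LinearMap.range (aeval T (X - C ζ : K[X])))) :
    del T ζ ≤ c := by
  set R := LinearMap.range (aeval T (X - C ζ : K[X])) with hR
  let B := Module.finBasis K (N ⧸ R)
  choose e he using fun i => R.mkQ_surjective (B i)
  refine hmax _ e (PInd_of_quot T ζ hinj e ?_)
  intro a ha
  have h1 : R.mkQ (∑ i, a i • e i) = 0 := by
    rw [Submodule.mkQ_apply, Submodule.Quotient.mk_eq_zero]
    exact ha
  rw [map_sum] at h1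
  simp only [map_smul, he] at h1
  have := Fintype.linearIndependent_iff.mp B.linearIndependent a h1
  funext i
  exact this i

/-- Away from finitely many Frobenius orbits the codimension is the rank. -/
theorem exists_den (T : Module.End K N) (hT : ∀ k f, T (D.Φ k f) = D.Φ k (T f)) {c : ℕ}
    (y : Fin c → N) (hy : PInd T y) (hmax : ∀ (k : ℕ) (z : Fin k → N), PInd T z → k ≤ c) :
    ∃ Dn : K[X], Dn ≠ 0 ∧ ∀ ζ : K, (∀ j : ℤ, Dn.eval (Fz p j ζ) ≠ 0) → del T ζ = c := by
  classical
  choose Q1 hQ1 P1 hP1 using fun i => exists_dep T y hy hmax (D.Φ 1 (y i))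
  choose Q2 hQ2 P2 hP2 using fun i => exists_dep T y hy hmax (D.Φ (-1) (y i))
  choose Q3 hQ3 P3 hP3 using fun j => exists_dep T y hy hmax (D.e j)
  let Dn : K[X] := (∏ i, Q1 i) * (∏ i, Q2 i) * (∏ j, Q3 j)
  have hDn : Dn ≠ 0 :=
    mul_ne_zero (mul_ne_zero (Finset.prod_ne_zero_iff.mpr fun i _ => hQ1 i)
      (Finset.prod_ne_zero_iff.mpr fun i _ => hQ2 i)) (Finset.prod_ne_zero_iff.mpr fun i _ => hQ3 i)
  have hd1 : ∀ i, Q1 i ∣ Dn := fun i =>
    ((Finset.dvd_prod_of_mem Q1 (Finset.mem_univ i)).mul_right _).mul_right _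
  have hd2 : ∀ i, Q2 i ∣ Dn := fun i =>
    ((Finset.dvd_prod_of_mem Q2 (Finset.mem_univ i)).mul_left _).mul_right _
  have hd3 : ∀ i, Q3 i ∣ Dn := fun i =>
    (Finset.dvd_prod_of_mem Q3 (Finset.mem_univ i)).mul_left _
  -- combinations
  let comb : (Fin c → K[X]) → N := fun P => ∑ i, aeval T (P i) (y i)
  have hcomb_mul : ∀ (Q : K[X]) P, aeval T Q (comb P) = comb (fun i => Q * P i) := by
    intro Q P
    change aeval T Q (∑ i, aeval T (P i) (y i)) = _
    rw [map_sum]
    refine Finset.sum_congr rfl fun i _ => ?_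
    rw [map_mul]
    rfl
  have hcomb_add : ∀ P P', comb P + comb P' = comb (fun i => P i + P' i) := by
    intro P P'
    change ∑ i, aeval T (P i) (y i) + ∑ i, aeval T (P' i) (y i) = _
    rw [← Finset.sum_add_distrib]
    refine Finset.sum_congr rfl fun i _ => ?_
    rw [map_add]
    rfl
  have hdvd : ∀ (Q : K[X]) (u : N) (P : Fin c → K[X]), Q ∣ Dn → aeval T Q u = comb P →
      ∃ P', aeval T Dn u = comb P' := by
    rintro Q u P ⟨R, hR⟩ h
    refine ⟨fun i => R * P i, ?_⟩
    rw [hR, mul_comm, map_mul, Module.End.mul_apply, h, hcomb_mul]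
  refine ⟨Dn, hDn, fun ζ hζ => ?_⟩
  -- the good elements
  let M : N → Prop := fun u => ∃ Q : K[X], (∀ j : ℤ, Q.eval (Fz p j ζ) ≠ 0) ∧
    ∃ P, aeval T Q u = comb P
  have hMadd : ∀ u v, M u → M v → M (u + v) := by
    rintro u v ⟨Q, hQ, P, hP⟩ ⟨Q', hQ', P', hP'⟩
    refine ⟨Q * Q', fun j => by rw [eval_mul]; exact mul_ne_zero (hQ j) (hQ' j),
      fun i => Q' * P i + Q * P' i, ?_⟩
    rw [map_add, ← hcomb_add, ← hcomb_mul, ← hcomb_mul, ← hP, ← hP', map_mul]
    congr 1
    rw [← map_mul, mul_comm, map_mul]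
    rfl
  have hMsmul : ∀ (a : K) u, M u → M (a • u) := by
    rintro a u ⟨Q, hQ, P, hP⟩
    refine ⟨Q, hQ, fun i => C a * P i, ?_⟩
    rw [map_smul, hP, ← hcomb_mul, aeval_C]
    rfl
  have hMzero : M 0 := ⟨1, fun j => by simp, 0, by simp [comb]⟩
  have hMcomb : ∀ u, (∃ P, aeval T Dn u = comb P) → M u := fun u h => ⟨Dn, hζ, h⟩
  have hMΦ : ∀ k : ℤ, (∀ i, ∃ P, aeval T Dn (D.Φ k (y i)) = comb P) → ∀ u, M u →
      M (D.Φ k u) := by
    rintro k hk u ⟨Q, hQ, P, hP⟩
    choose R hR using hk
    refine ⟨Dn * Q.map (FH (p := p) k), ?_, fun l => ∑ i, (P i).map (FH (p := p) k) * R i l, ?_⟩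
    · intro j
      rw [eval_mul]
      refine mul_ne_zero (hζ j) ?_
      have h1 : Fz p j ζ = FH (p := p) k (Fz p (j - k) ζ) := by
        rw [FH_apply, Fz_comp]
        congr 1
        ring
      rw [h1, eval_map, eval₂_at_apply, FH_apply]
      exact Fz_ne_zero p k (hQ _)
    · rw [map_mul, Module.End.mul_apply, ← D.Φ_aeval T hT, hP]
      change aeval T Dn (D.Φ k (∑ i, aeval T (P i) (y i))) = _
      rw [D.Φ_sum, map_sum]
      have h1 : ∀ i, aeval T Dn (D.Φ k (aeval T (P i) (y i))) =
          comb (fun l => (P i).map (FH (p := p) k) * R i l) := by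
        intro i
        rw [D.Φ_aeval T hT, ← hcomb_mul, ← hR i, ← Module.End.mul_apply, ← Module.End.mul_apply,
          ← map_mul, ← map_mul, mul_comm]
      rw [Finset.sum_congr rfl fun i _ => h1 i]
      change ∑ i, ∑ l, aeval T ((P i).map (FH (p := p) k) * R i l) (y l) = _
      rw [Finset.sum_comm]
      refine Finset.sum_congr rfl fun l _ => ?_
      rw [map_sum, LinearMap.sum_apply]
  have hMe : ∀ j, M (D.e j) := fun j => hMcomb _ (hdvd _ _ _ (hd3 j) (hP3 j))
  have hM1 := hMΦ 1 (fun i => hdvd _ _ _ (hd1 i) (hP1 i))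
  have hM2 := hMΦ (-1) (fun i => hdvd _ _ _ (hd2 i) (hP2 i))
  have hpos : ∀ (a : ℕ) j, M (D.Φ (a : ℤ) (D.e j)) := by
    intro a j
    induction a with
    | zero => rw [Nat.cast_zero, D.Φ_zero]; exact hMe j
    | succ a ih =>
      have := hM1 _ ih
      rw [D.Φ_comp] at this
      have e1 : (1 : ℤ) + a = ((a + 1 : ℕ) : ℤ) := by push_cast; ring
      rwa [e1] at this
  have hneg : ∀ (a : ℕ) j, M (D.Φ (-(a : ℤ)) (D.e j)) := by
    intro a j
    induction a with
    | zero => rw [Nat.cast_zero, neg_zero, D.Φ_zero]; exact hMe j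
    | succ a ih =>
      have := hM2 _ ih
      rw [D.Φ_comp] at this
      have e1 : (-1 : ℤ) + -(a : ℤ) = -((a + 1 : ℕ) : ℤ) := by push_cast; ring
      rwa [e1] at this
  have hMall : ∀ u, M u := by
    intro u
    have hu := D.spn u
    induction hu using Submodule.span_induction with
    | mem g hg =>
      obtain ⟨⟨i, j⟩, rfl⟩ := hg
      dsimp only
      rcases le_total 0 i with h | h
      · obtain ⟨n, rfl⟩ := Int.eq_ofNat_of_zero_le h
        exact hpos n j
      · obtain ⟨n, hn⟩ := Int.eq_ofNat_of_zero_le (neg_nonneg.mpr h)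
        have : i = -(n : ℤ) := by omega
        subst this
        exact hneg n j
    | zero => exact hMzero
    | add g h _ _ hg hh => exact hMadd _ _ hg hh
    | smul a g _ hg => exact hMsmul a g hg
  have h0 : ∀ Q : K[X], (∀ j : ℤ, Q.eval (Fz p j ζ) ≠ 0) → Q.eval ζ ≠ 0 := by
    intro Q hQ
    have := hQ 0
    rwa [Fz_zero] at this
  have hdec : ∀ P : Fin c → K[X], comb P = ∑ i, (P i).eval ζ • y i +
      aeval T (X - C ζ : K[X]) (comb fun i => P i /ₘ (X - C ζ)) := by
    intro P
    change ∑ i, aeval T (P i) (y i) = _ + aeval T (X - C ζ : K[X]) (∑ i, aeval T (P i /ₘ (X - C ζ)) (y i))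
    rw [map_sum, ← Finset.sum_add_distrib]
    refine Finset.sum_congr rfl fun i _ => ?_
    conv_lhs => rw [exists_div ζ (P i)]
    rw [map_add, map_mul, aeval_C]
    rfl
  have := (finrank_of_family (LinearMap.range (aeval T (X - C ζ : K[X]))) y ?_ ?_).2
  · rw [Fintype.card_fin] at this
    exact this
  · intro u
    obtain ⟨Q, hQ, P, hP⟩ := hMall u
    have hQ0 := h0 Q hQ
    refine ⟨fun i => (Q.eval ζ)⁻¹ * (P i).eval ζ, ?_⟩
    have h1 : aeval T Q u = Q.eval ζ • u + aeval T (X - C ζ : K[X]) (aeval T (Q /ₘ (X - C ζ)) u) := by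
      conv_lhs => rw [exists_div ζ Q]
      rw [map_add, map_mul, aeval_C]
      rfl
    rw [hdec, h1] at hP
    have h2 : Q.eval ζ • (u - ∑ i, ((Q.eval ζ)⁻¹ * (P i).eval ζ) • y i) =
        aeval T (X - C ζ : K[X]) ((comb fun i => P i /ₘ (X - C ζ)) -
          aeval T (Q /ₘ (X - C ζ)) u) := by
      rw [smul_sub, Finset.smul_sum]
      simp only [smul_smul]
      simp only [mul_inv_cancel_left₀ hQ0]
      rw [map_sub]
      rw [sub_eq_sub_iff_add_eq_add, hP, add_comm]
    have h3 : u - ∑ i, ((Q.eval ζ)⁻¹ * (P i).eval ζ) • y i = (Q.eval ζ)⁻¹ •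
        (Q.eval ζ • (u - ∑ i, ((Q.eval ζ)⁻¹ * (P i).eval ζ) • y i)) := by
      rw [smul_smul, inv_mul_cancel₀ hQ0, one_smul]
    rw [h3, h2]
    exact Submodule.smul_mem _ _ ⟨_, rfl⟩
  · rintro a ⟨u, hu⟩
    obtain ⟨Q, hQ, P, hP⟩ := hMall u
    have hQ0 := h0 Q hQ
    have h1 : comb (fun i => Q * C (a i)) = comb (fun i => (X - C ζ) * P i) := by
      rw [← hcomb_mul, ← hcomb_mul, ← hP]
      have : comb (fun i => C (a i)) = ∑ i, a i • y i := by
        change ∑ i, aeval T (C (a i)) (y i) = _
        refine Finset.sum_congr rfl fun i _ => ?_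
        rw [aeval_C]
        rfl
      rw [this, ← hu, ← Module.End.mul_apply, ← Module.End.mul_apply, ← map_mul, ← map_mul,
        mul_comm]
    have h2 : ∑ i, aeval T (Q * C (a i) - (X - C ζ) * P i) (y i) = 0 := by
      have : ∀ i, aeval T (Q * C (a i) - (X - C ζ) * P i) (y i) =
          aeval T (Q * C (a i)) (y i) - aeval T ((X - C ζ) * P i) (y i) := by
        intro i
        rw [map_sub, LinearMap.sub_apply]
      rw [Finset.sum_congr rfl fun i _ => this i, Finset.sum_sub_distrib, sub_eq_zero]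
      exact h1
    have h3 := hy _ h2
    funext i
    have h4 := congrArg (fun P => Polynomial.eval ζ P) (h3 i)
    simp only [eval_sub, eval_mul, eval_C, eval_X, sub_self, zero_mul, sub_zero, eval_zero] at h4
    exact (mul_eq_zero.mp h4).resolve_left hQ0

end Dat

end Pool.Agent.R369.Fad
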