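import Pool.Agent.R369.Fad.Count
import Pool.Agent.R369.Fad.Poly

/-!
The function model is an instance of the abstract data, and the operator given by an
endomorphism.
-/

namespace Pool.Agent.R369.Fad

open Polynomial

variable {K : Type*} [Field K] [IsAlgClosed K] (p : ℕ) [hp : Fact p.Prime] [CharP K p]

theorem ef_linearIndependent (r : ℕ) :
    LinearIndependent K (fun ij : ℤ × Fin r => ef (K := K) p r ij.1 ij.2) := by
  classical
  let R : ((Fin r → K) → K) →ₗ[K] (Fin r →₀ (K → K)) :=
    (Finsupp.linearEquivFunOnFinite K (K → K) (Fin r)).symm.toLinearMap ∘ₗ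
      LinearMap.pi (fun j => LinearMap.funLeft K K (fun a : K => (Pi.single j a : Fin r → K)))
  have hR : ∀ i j, R (ef (K := K) p r i j) = Finsupp.single j (Fz p i) := by
    intro i j
    ext j' a
    simp only [R, LinearMap.comp_apply, LinearEquiv.coe_coe]
    change ef (K := K) p r i j (Pi.single j' a) = _
    unfold ef
    rw [Finsupp.single_apply, Pi.single_apply]
    split_ifs with h
    · rfl
    · exact Fz_zero_right p i
  apply LinearIndependent.of_comp R
  have h := Finsupp.linearIndependent_single (R := K) (M := K → K)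
    (fun (_ : Fin r) (i : ℤ) => (Fz p i : K → K)) (fun _ => Fz_linearIndependent p)
  have hinj : Function.Injective (fun ij : ℤ × Fin r => (⟨ij.2, ij.1⟩ : Σ _ : Fin r, ℤ)) := by
    rintro ⟨i, j⟩ ⟨i', j'⟩ h
    simp only [Sigma.mk.injEq, heq_eq_eq] at h
    rw [h.1, h.2]
  have h2 := h.comp _ hinj
  convert h2 using 1
  funext ij
  exact hR ij.1 ij.2

/-- Nonzero one-variable functions of the model are surjective. -/
theorem surj_one {f : K → K} (hf : f ∈ N1 (K := K) p) (hf0 : f ≠ 0) : Function.Surjective f := by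
  obtain ⟨M, d, c, hM, i, hi, hci⟩ := exists_shift p hf hf0
  intro y
  set Q : K[X] := ∑ i ∈ Finset.range (d + 1), C (c i) * X ^ p ^ i - C (Fz p M y) with hQ
  have hcoeff : Q.coeff (p ^ i) = c i := by
    rw [hQ, coeff_sub, finsetSum_coeff, coeff_C, if_neg (pow_ne_zero _ hp.out.ne_zero), sub_zero]
    rw [Finset.sum_eq_single i]
    · rw [coeff_C_mul, coeff_X_pow, if_pos rfl, mul_one]
    · intro j _ hj
      rw [coeff_C_mul, coeff_X_pow, if_neg, mul_zero]
      intro h
      exact hj (Nat.pow_right_injective hp.out.two_le h).symm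
    · intro h
      exact absurd (Finset.mem_range.mpr (by omega)) h
  have hdeg : Q.degree ≠ 0 := by
    have h1 : p ^ i ≤ Q.natDegree := le_natDegree_of_ne_zero (by rw [hcoeff]; exact hci)
    have h2 : 0 < Q.natDegree := lt_of_lt_of_le (Nat.pow_pos hp.out.pos) h1
    intro h
    have := natDegree_eq_of_degree_eq_some (n := 0) h
    omega
  obtain ⟨x, hx⟩ := IsAlgClosed.exists_root Q hdeg
  refine ⟨x, Fz_inj p M ?_⟩
  have h3 := congrFun hM x
  rw [gs_apply] at h3
  rw [IsRoot.def, hQ, eval_sub, eval_C, eval_finsetSum, sub_eq_zero] at hx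
  change Fz p M (f x) = _ at h3
  rw [h3, ← hx]
  refine Finset.sum_congr rfl fun i _ => ?_
  simp

/-- Nonzero functions of the model are surjective. -/
theorem surj_fun (r : ℕ) {f : (Fin r → K) → K} (hf : f ∈ Nm p r) (hf0 : f ≠ 0) :
    Function.Surjective f := by
  classical
  have hax : ∀ j : Fin r, (fun a : K => f (Pi.single j a)) ∈ N1 (K := K) p := by
    intro j
    have : Nm (K := K) p r ≤
        (N1 p).comap (LinearMap.funLeft K K (fun a : K => (Pi.single j a : Fin r → K))) := by
      conv_lhs => unfold Nm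
      rw [Submodule.span_le]
      rintro _ ⟨⟨i, j'⟩, rfl⟩
      change (fun a : K => ef (K := K) p r i j' (Pi.single j a)) ∈ N1 p
      unfold ef
      by_cases h : j' = j
      · subst h
        simp only [Pi.single_eq_same]
        exact Fz_mem p i
      · simp only [Pi.single_eq_of_ne h, Fz_zero_right]
        exact Submodule.zero_mem _
    exact this hf
  have hex : ∃ j : Fin r, (fun a : K => f (Pi.single j a)) ≠ 0 := by
    by_contra h
    push Not at h
    apply hf0
    funext x
    have hs : ∀ s : Finset (Fin r), f (∑ j ∈ s, Pi.single j (x j)) = 0 := by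
      intro s
      induction s using Finset.induction_on with
      | empty =>
        have := Nm_add p r hf 0 0
        rw [add_zero] at this
        rw [Finset.sum_empty]
        linear_combination -this
      | insert j s hj ih =>
        rw [Finset.sum_insert hj, Nm_add p r hf, ih, add_zero]
        exact congrFun (h j) (x j)
    have := hs Finset.univ
    rw [Finset.univ_sum_single] at this
    exact this
  obtain ⟨j, hj⟩ := hex
  intro y
  obtain ⟨a, ha⟩ := surj_one p (hax j) hj y
  exact ⟨Pi.single j a, ha⟩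

/-- The function model as abstract data. -/
noncomputable def datN (r : ℕ) : Dat K p (Nm (K := K) p r) r where
  Φ k f := ⟨Ph p k f.1, Ph_mem p r k f.2⟩
  Φ_add k f g := Subtype.ext (Ph_add p k f.1 g.1)
  Φ_smul k c f := Subtype.ext (Ph_smul p k c f.1)
  Φ_comp k l f := Subtype.ext (Ph_comp p k l f.1)
  Φ_zero f := Subtype.ext (Ph_z p f.1)
  e j := ⟨ef p r 0 j, ef_mem p r 0 j⟩
  ind := by
    apply LinearIndependent.of_comp (Nm (K := K) p r).subtype
    have h := ef_linearIndependent (K := K) p r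
    convert h using 1
    funext ij
    change Ph p ij.1 (ef p r 0 ij.2) = _
    rw [Ph_ef, add_zero]
  spn := by
    intro f
    have h : (Nm (K := K) p r).subtype f ∈ (Submodule.span K (Set.range fun ij : ℤ × Fin r =>
        (⟨Ph p ij.1 (ef p r 0 ij.2), Ph_mem p r _ (ef_mem p r 0 ij.2)⟩ : Nm (K := K) p r))).map
          (Nm (K := K) p r).subtype := by
      rw [Submodule.map_span, ← Set.range_comp]
      have h2 : ((Nm (K := K) p r).subtype ∘ fun ij : ℤ × Fin r =>
        (⟨Ph p ij.1 (ef p r 0 ij.2), Ph_mem p r _ (ef_mem p r 0 ij.2)⟩ : Nm (K := K) p r)) =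
          fun ij : ℤ × Fin r => ef p r ij.1 ij.2 := by
        funext ij
        change Ph p ij.1 (ef p r 0 ij.2) = _
        rw [Ph_ef, add_zero]
      rw [h2]
      exact f.2
    obtain ⟨g, hg, hgf⟩ := h
    have : g = f := Subtype.ext hgf
    rw [← this]
    exact hg
  indf := by
    intro f hf0
    apply LinearIndependent.of_comp (Nm (K := K) p r).subtype
    have hsurj : Function.Surjective f.1 :=
      surj_fun p r f.2 (fun h => hf0 (Subtype.ext h))
    have h := (Fz_linearIndependent (K := K) p).map'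
      (LinearMap.funLeft K K f.1)
      (LinearMap.ker_eq_bot.mpr (LinearMap.funLeft_injective_of_surjective K K f.1 hsurj))
    exact h

/-- The operator `f ↦ f ∘ σ`. -/
noncomputable def opT (r : ℕ) (σ : (Fin r → K) → (Fin r → K))
    (hσ : ∀ f ∈ Nm (K := K) p r, (fun x => f (σ x)) ∈ Nm p r) : Module.End K (Nm (K := K) p r) :=
  (LinearMap.funLeft K K σ).restrict hσ

theorem opT_apply (r : ℕ) (σ : (Fin r → K) → (Fin r → K))
    (hσ : ∀ f ∈ Nm (K := K) p r, (fun x => f (σ x)) ∈ Nm p r) (f : Nm (K := K) p r)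
    (x : Fin r → K) : (opT p r σ hσ f).1 x = f.1 (σ x) := rfl

theorem opT_pow (r : ℕ) (σ : (Fin r → K) → (Fin r → K))
    (hσ : ∀ f ∈ Nm (K := K) p r, (fun x => f (σ x)) ∈ Nm p r) (n : ℕ) (f : Nm (K := K) p r)
    (x : Fin r → K) : ((opT p r σ hσ ^ n) f).1 x = f.1 (σ^[n] x) := by
  induction n generalizing x with
  | zero => rfl
  | succ n ih =>
    rw [pow_succ', Module.End.mul_apply, opT_apply, ih, Function.iterate_succ_apply]

theorem opT_comm (r : ℕ) (σ : (Fin r → K) → (Fin r → K))
    (hσ : ∀ f ∈ Nm (K := K) p r, (fun x => f (σ x)) ∈ Nm p r) (k : ℤ) (f : Nm (K := K) p r) :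
    opT p r σ hσ ((datN p r).Φ k f) = (datN p r).Φ k (opT p r σ hσ f) := rfl

/-- Composition with a map whose coordinates are in the model preserves the model. -/
theorem comp_mem (r : ℕ) (σ : (Fin r → K) → (Fin r → K))
    (hσ : ∀ j, (fun x => σ x j) ∈ Nm (K := K) p r) :
    ∀ f ∈ Nm (K := K) p r, (fun x => f (σ x)) ∈ Nm p r := by
  intro f hf
  have : Nm (K := K) p r ≤ (Nm p r).comap (LinearMap.funLeft K K σ) := by
    conv_lhs => unfold Nm
    rw [Submodule.span_le]
    rintro _ ⟨⟨i, j⟩, rfl⟩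
    exact Ph_mem p r i (hσ j)
  exact this hf

/-- The fixed points of an iterate, counted by a codimension. -/
theorem card_fix (r : ℕ) (σ : (Fin r → K) → (Fin r → K))
    (hσ : ∀ f ∈ Nm (K := K) p r, (fun x => f (σ x)) ∈ Nm p r) (n : ℕ)
    (hfin : {x : Fin r → K | σ^[n] x = x}.Finite) :
    Module.Finite K (Nm (K := K) p r ⧸ LinearMap.range (aeval (opT p r σ hσ) (X ^ n - 1 : K[X]))) ∧
    Nat.card {x : Fin r → K // σ^[n] x = x} =
      p ^ Module.finrank K
        (Nm (K := K) p r ⧸ LinearMap.range (aeval (opT p r σ hσ) (X ^ n - 1 : K[X]))) := by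
  set T := opT p r σ hσ with hT
  set R := LinearMap.range (aeval T (X ^ n - 1 : K[X])) with hR
  have hval : ∀ (f : Nm (K := K) p r) (x : Fin r → K),
      (aeval T (X ^ n - 1 : K[X]) f).1 x = f.1 (σ^[n] x) - f.1 x := by
    intro f x
    rw [map_sub, map_pow, aeval_X, map_one, LinearMap.sub_apply, ← opT_pow p r σ hσ]
    rfl
  set J := R.map (Nm (K := K) p r).subtype with hJ
  have hJle : J ≤ Nm p r := by
    rw [hJ]
    exact Submodule.map_subtype_le _ _
  have hJst : ∀ (k : ℤ) (f : (Fin r → K) → K), f ∈ J → Ph p k f ∈ J := by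
    rintro k _ ⟨_, ⟨f, rfl⟩, rfl⟩
    refine ⟨aeval T (X ^ n - 1 : K[X]) ((datN p r).Φ k f), ⟨_, rfl⟩, ?_⟩
    funext x
    have h1 := hval ((datN p r).Φ k f) x
    rw [Submodule.subtype_apply, h1]
    change Fz p k (f.1 (σ^[n] x)) - Fz p k (f.1 x) = Fz p k ((aeval T (X ^ n - 1 : K[X]) f).1 x)
    rw [hval, Fz_sub]
  have hZs : Zs J = {x : Fin r → K | σ^[n] x = x} := by
    ext x
    constructor
    · intro h
      change σ^[n] x = x
      funext j
      have h1 := h _ ⟨aeval T (X ^ n - 1 : K[X]) ⟨ef p r 0 j, ef_mem p r 0 j⟩, ⟨_, rfl⟩, rfl⟩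
      rw [Submodule.subtype_apply, hval, sub_eq_zero] at h1
      change Fz p 0 (σ^[n] x j) = Fz p 0 (x j) at h1
      rw [Fz_zero, Fz_zero] at h1
      exact h1
    · rintro h _ ⟨_, ⟨f, rfl⟩, rfl⟩
      rw [Submodule.subtype_apply, hval, sub_eq_zero]
      change σ^[n] x = x at h
      rw [h]
  obtain ⟨ι, hι, b, hbN, hbs, hbi, hcard⟩ := count_zeros p r J hJle hJst (by rw [hZs]; exact hfin)
  have hmemJ : ∀ f : Nm (K := K) p r, f.1 ∈ J ↔ f ∈ R := by
    intro f
    constructor
    · rintro ⟨g, hg, hgf⟩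
      have : g = f := Subtype.ext hgf
      rw [← this]
      exact hg
    · intro h
      exact ⟨f, h, rfl⟩
  have hfam := finrank_of_family R (fun i => (⟨b i, hbN i⟩ : Nm (K := K) p r)) (by
      intro f
      obtain ⟨a, ha⟩ := hbs f.1 f.2
      refine ⟨a, ?_⟩
      rw [← hmemJ]
      convert ha using 1
      rw [Submodule.coe_sub, Submodule.coe_sum]
      rfl) (by
      intro a ha
      apply hbi
      rw [← hmemJ, Submodule.coe_sum] at ha
      exact ha)
  refine ⟨hfam.1, ?_⟩
  rw [hfam.2, ← hcard, hZs]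
  rfl

end Pool.Agent.R369.Fad
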