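import Pool.Agent.R369.Fad.Basic

/-!
One-variable theory: stable subspaces of the span of the powers of Frobenius.
-/

namespace Pool.Agent.R369.Fad

open Polynomial

variable {K : Type*} [Field K] [IsAlgClosed K] (p : ℕ) [hp : Fact p.Prime] [CharP K p]

theorem Fz_injective_index : Function.Injective (fun i : ℤ => (Fz p i : K → K)) := by
  -- enough: if `F^n = id` with `n ≥ 1` then the field is finite
  have key : ∀ n : ℕ, (∀ x : K, Fz p (n : ℤ) x = x) → n = 0 := by
    intro n hn
    by_contra h0
    have hlt : 1 < p ^ n := Nat.one_lt_pow h0 hp.out.one_lt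
    have hne : (X ^ p ^ n - X : K[X]) ≠ 0 := FiniteField.X_pow_card_sub_X_ne_zero K hlt
    apply hne
    apply Polynomial.funext
    intro x
    have := hn x
    rw [Fz_nat] at this
    simp [this]
  have key2 : ∀ i j : ℤ, i ≤ j → (Fz p i : K → K) = Fz p j → i = j := by
    intro i j hij h
    obtain ⟨n, hn⟩ := Int.eq_ofNat_of_zero_le (sub_nonneg.mpr hij)
    have : n = 0 := by
      apply key
      intro x
      have h1 := congrFun h (Fz p (-i) x)
      rw [Fz_comp, Fz_comp] at h1
      rw [add_neg_cancel, Fz_zero] at h1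
      rw [← hn, sub_eq_add_neg]
      exact h1.symm
    subst this
    simp at hn
    omega
  intro i j h
  rcases le_total i j with hij | hij
  · exact key2 i j hij h
  · exact (key2 j i hij h.symm).symm

theorem Fz_linearIndependent : LinearIndependent K (fun i : ℤ => (Fz p i : K → K)) := by
  have h := linearIndependent_monoidHom K K
  let e : ℤ → (K →* K) := fun i => ((Fr p : K ≃+* K) ^ i : RingAut K).toRingHom.toMonoidHom
  have he : Function.Injective e := by
    intro i j hij
    apply Fz_injective_index (K := K) p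
    funext x
    exact congrArg (fun g : K →* K => g x) hij
  exact h.comp e he

/-- Finite combinations with nonnegative exponents. -/
noncomputable def gs (d : ℕ) (c : ℕ → K) : K → K :=
  ∑ i ∈ Finset.range d, c i • (Fz p (i : ℤ) : K → K)

theorem gs_apply (d : ℕ) (c : ℕ → K) (x : K) :
    gs p d c x = ∑ i ∈ Finset.range d, c i * x ^ p ^ i := by
  unfold gs
  rw [Finset.sum_apply]
  refine Finset.sum_congr rfl fun i _ => ?_
  rw [Pi.smul_apply, smul_eq_mul, Fz_nat]

theorem gs_mem (d : ℕ) (c : ℕ → K) : gs p d c ∈ N1 (K := K) p :=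
  Submodule.sum_mem _ fun _ _ => Submodule.smul_mem _ _ (Fz_mem p _)

theorem Ph_sum {V ι : Type*} (k : ℤ) (s : Finset ι) (f : ι → V → K) :
    Ph p k (∑ i ∈ s, f i) = ∑ i ∈ s, Ph p k (f i) := by
  funext x
  unfold Ph
  rw [Finset.sum_apply, Fz_sum, Finset.sum_apply]

theorem Ph_Fz (k i : ℤ) : Ph p k (Fz p i : K → K) = Fz p (k + i) := by
  funext x
  exact Fz_comp p k i x

theorem Ph_gs (k : ℤ) (d : ℕ) (c : ℕ → K) :
    Ph p k (gs p d c) = ∑ i ∈ Finset.range d, Fz p k (c i) • (Fz p (k + (i : ℤ)) : K → K) := by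
  unfold gs
  rw [Ph_sum]
  refine Finset.sum_congr rfl fun i _ => ?_
  rw [Ph_smul, Ph_Fz]

/-- Every element of the one-variable span has a shift with nonnegative exponents. -/
theorem exists_shift {f : K → K} (hf : f ∈ N1 (K := K) p) (hf0 : f ≠ 0) :
    ∃ (M : ℤ) (d : ℕ) (c : ℕ → K), Ph p M f = gs p (d + 1) c ∧ ∃ i ≤ d, c i ≠ 0 := by
  classical
  obtain ⟨c, hc⟩ := (Finsupp.mem_span_range_iff_exists_finsupp).mp hf
  -- a bound for the support
  obtain ⟨M, hM⟩ : ∃ M : ℕ, ∀ i ∈ c.support, -(M : ℤ) ≤ i ∧ i ≤ M := by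
    refine ⟨c.support.sup Int.natAbs, fun i hi => ?_⟩
    have : i.natAbs ≤ c.support.sup Int.natAbs := Finset.le_sup hi
    omega
  refine ⟨M, 2 * M, fun n => Fz p M (c ((n : ℤ) - M)), ?_, ?_⟩
  · rw [← hc]
    unfold gs Finsupp.sum
    rw [Ph_sum]
    have h1 : ∀ i ∈ c.support, Ph p M (c i • (Fz p i : K → K)) =
        Fz p M (c i) • (Fz p (M + i) : K → K) := by
      intro i _
      rw [Ph_smul, Ph_Fz]
    rw [Finset.sum_congr rfl h1]
    have h2 : ∑ i ∈ c.support, Fz p M (c i) • (Fz p (M + i) : K → K) =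
        ∑ n ∈ c.support.image (fun i : ℤ => (i + (M : ℤ)).toNat),
          Fz p M (c ((n : ℤ) - M)) • (Fz p (n : ℤ) : K → K) := by
      rw [Finset.sum_image]
      · refine Finset.sum_congr rfl fun i hi => ?_
        have := hM i hi
        have h3 : (((i + M).toNat : ℕ) : ℤ) = i + M := Int.toNat_of_nonneg (by omega)
        rw [h3, add_sub_cancel_right, add_comm (M : ℤ) i]
      · intro i hi j hj hij
        have h3 := hM i hi
        have h4 := hM j hj
        dsimp only at hij
        omega
    rw [h2]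
    refine Finset.sum_subset ?_ ?_
    · intro n hn
      rw [Finset.mem_image] at hn
      obtain ⟨i, hi, rfl⟩ := hn
      have := hM i hi
      rw [Finset.mem_range]
      omega
    · intro n _ hn
      have : c ((n : ℤ) - M) = 0 := by
        by_contra h
        apply hn
        rw [Finset.mem_image]
        refine ⟨(n : ℤ) - M, Finsupp.mem_support_iff.mpr h, ?_⟩
        simp
      rw [this, Fz_zero_right, zero_smul]
  · have hne : c ≠ 0 := by
      rintro rfl
      apply hf0
      rw [← hc]
      simp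
    obtain ⟨i, hi⟩ := Finsupp.ne_iff.mp hne
    have hi' : c i ≠ 0 := by simpa using hi
    have := hM i (Finsupp.mem_support_iff.mpr hi')
    refine ⟨(i + M).toNat, by omega, ?_⟩
    have h3 : (((i + M).toNat : ℕ) : ℤ) = i + M := Int.toNat_of_nonneg (by omega)
    dsimp only
    rw [h3, add_sub_cancel_right]
    exact Fz_ne_zero p _ hi'

/-- Structure of the nonzero stable subspaces in one variable. -/
theorem stable_structure (I : Submodule K (K → K)) (hI : I ≤ N1 p)
    (hst : ∀ (k : ℤ) (f : K → K), f ∈ I → Ph p k f ∈ I) (hne : I ≠ ⊥) :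
    ∃ (d : ℕ) (c : ℕ → K), c 0 ≠ 0 ∧ c d ≠ 0 ∧ gs p (d + 1) c ∈ I ∧
      (∀ a : ℕ → K, gs p d a ∈ I → ∀ i < d, a i = 0) ∧
      (∀ f ∈ N1 (K := K) p, ∃ a : ℕ → K,
        f - gs p d a ∈ Submodule.span K (Set.range fun k : ℤ => Ph p k (gs p (d + 1) c))) := by
  classical
  obtain ⟨f, hfI, hf0⟩ := Submodule.exists_mem_ne_zero_of_ne_bot hne
  have hex : ∃ d : ℕ, ∃ c : ℕ → K, gs p (d + 1) c ∈ I ∧ ∃ i ≤ d, c i ≠ 0 := by
    obtain ⟨M, d, c, h1, h2⟩ := exists_shift p (hI hfI) hf0
    exact ⟨d, c, h1 ▸ hst M f hfI, h2⟩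
  set d := Nat.find hex with hd
  obtain ⟨c, hcI, hc⟩ := Nat.find_spec hex
  have hmin : ∀ m < d, ¬ ∃ c : ℕ → K, gs p (m + 1) c ∈ I ∧ ∃ i ≤ m, c i ≠ 0 :=
    fun m hm => Nat.find_min hex hm
  rw [← hd] at hcI hc
  have hcd : c d ≠ 0 := by
    intro h
    rcases Nat.eq_zero_or_pos d with h0 | h0
    · obtain ⟨i, hi, hci⟩ := hc
      have : i = d := by omega
      exact hci (this ▸ h)
    · obtain ⟨m, hm⟩ := Nat.exists_eq_succ_of_ne_zero h0.ne'
      apply hmin m (by omega)
      refine ⟨c, ?_, ?_⟩
      · have : gs p (d + 1) c = gs p (m + 1) c := by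
          unfold gs
          rw [Finset.sum_range_succ, h, zero_smul, add_zero, hm]
        rw [← this]
        exact hcI
      · obtain ⟨i, hi, hci⟩ := hc
        refine ⟨i, ?_, hci⟩
        by_contra h1
        have : i = d := by omega
        exact hci (this ▸ h)
  have hc0 : c 0 ≠ 0 := by
    intro h
    rcases Nat.eq_zero_or_pos d with h0 | h0
    · rw [h0] at hcd
      exact hcd h
    · obtain ⟨m, hm⟩ := Nat.exists_eq_succ_of_ne_zero h0.ne'
      apply hmin m (by omega)
      refine ⟨fun i => Fz p (-1) (c (i + 1)), ?_, m, le_rfl, ?_⟩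
      · have h1 := hst (-1) _ hcI
        rw [Ph_gs, Finset.sum_range_succ', h, Fz_zero_right, zero_smul, add_zero] at h1
        have h2 : gs p (m + 1) (fun i => Fz p (-1) (c (i + 1))) =
            ∑ k ∈ Finset.range d, Fz p (-1) (c (k + 1)) • (Fz p (-1 + ((k + 1 : ℕ) : ℤ)) : K → K) := by
          unfold gs
          rw [hm]
          refine Finset.sum_congr rfl fun i _ => ?_
          congr 2
          push_cast
          ring
        rw [h2]
        exact h1
      · apply Fz_ne_zero
        rw [← Nat.succ_eq_add_one, ← hm]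
        exact hcd
  refine ⟨d, c, hc0, hcd, hcI, ?_, ?_⟩
  · intro a ha i hi
    by_contra hai
    obtain ⟨m, hm⟩ := Nat.exists_eq_succ_of_ne_zero (show d ≠ 0 by omega)
    apply hmin m (by omega)
    refine ⟨a, ?_, i, by omega, hai⟩
    rw [← Nat.succ_eq_add_one, ← hm]
    exact ha
  · set G := gs p (d + 1) c with hG
    set S := Submodule.span K (Set.range fun k : ℤ => Ph p k G) ⊔
      Submodule.span K (Set.range fun i : Fin d => (Fz p (i : ℤ) : K → K)) with hS
    have hPh : ∀ k : ℤ, Ph p k G ∈ S := fun k =>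
      Submodule.mem_sup_left (Submodule.subset_span ⟨k, rfl⟩)
    have hlow : ∀ i < d, (Fz p (i : ℤ) : K → K) ∈ S := fun i hi =>
      Submodule.mem_sup_right (Submodule.subset_span ⟨⟨i, hi⟩, rfl⟩)
    have hup : ∀ n : ℕ, (Fz p (n : ℤ) : K → K) ∈ S := by
      intro n
      induction n using Nat.strong_induction_on with
      | _ n ih =>
        rcases lt_or_ge n d with h | h
        · exact hlow n h
        · have h1 := hPh ((n : ℤ) - d)
          rw [hG, Ph_gs, Finset.sum_range_succ] at h1
          have h2 : (n : ℤ) - d + d = n := by ring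
          rw [h2] at h1
          have h3 : ∑ i ∈ Finset.range d, Fz p ((n : ℤ) - d) (c i) •
              (Fz p ((n : ℤ) - d + (i : ℤ)) : K → K) ∈ S := by
            refine Submodule.sum_mem _ fun i hi => Submodule.smul_mem _ _ ?_
            rw [Finset.mem_range] at hi
            have h4 : (n : ℤ) - d + (i : ℤ) = ((n - d + i : ℕ) : ℤ) := by
              push_cast [Nat.cast_sub h]
              ring
            rw [h4]
            exact ih _ (by omega)
          have h4 := (Submodule.add_mem_iff_right _ h3).mp h1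
          have h5 := Fz_ne_zero p ((n : ℤ) - d) hcd
          have h6 := Submodule.smul_mem S (Fz p ((n : ℤ) - d) (c d))⁻¹ h4
          rwa [smul_smul, inv_mul_cancel₀ h5, one_smul] at h6
    have hdown : ∀ n : ℕ, (Fz p (-(n : ℤ)) : K → K) ∈ S := by
      intro n
      induction n using Nat.strong_induction_on with
      | _ n ih =>
        have h1 := hPh (-(n : ℤ))
        rw [hG, Ph_gs, Finset.sum_range_succ'] at h1
        have h3 : ∑ k ∈ Finset.range d, Fz p (-(n : ℤ)) (c (k + 1)) •
            (Fz p (-(n : ℤ) + ((k + 1 : ℕ) : ℤ)) : K → K) ∈ S := by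
          refine Submodule.sum_mem _ fun i _ => Submodule.smul_mem _ _ ?_
          rcases le_or_gt n (i + 1) with h | h
          · have h4 : -(n : ℤ) + ((i + 1 : ℕ) : ℤ) = ((i + 1 - n : ℕ) : ℤ) := by
              push_cast [Nat.cast_sub h]
              ring
            rw [h4]
            exact hup _
          · have h4 : -(n : ℤ) + ((i + 1 : ℕ) : ℤ) = -((n - (i + 1) : ℕ) : ℤ) := by
              push_cast [Nat.cast_sub h.le]
              ring
            rw [h4]
            exact ih _ (by omega)
        have h4 := (Submodule.add_mem_iff_right _ h3).mp h1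
        have h5 := Fz_ne_zero p (-(n : ℤ)) hc0
        have h6 := Submodule.smul_mem S (Fz p (-(n : ℤ)) (c 0))⁻¹ h4
        rw [smul_smul, inv_mul_cancel₀ h5, one_smul] at h6
        simpa using h6
    have hall : N1 (K := K) p ≤ S := by
      unfold N1
      rw [Submodule.span_le]
      rintro _ ⟨i, rfl⟩
      rcases le_total 0 i with h | h
      · obtain ⟨n, rfl⟩ := Int.eq_ofNat_of_zero_le h
        exact hup n
      · obtain ⟨n, hn⟩ := Int.eq_ofNat_of_zero_le (neg_nonneg.mpr h)
        have : i = -(n : ℤ) := by omega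
        rw [this]
        exact hdown n
    intro f hf
    obtain ⟨u, hu, v, hv, huv⟩ := Submodule.mem_sup.mp (hall hf)
    obtain ⟨a, ha⟩ := (Submodule.mem_span_range_iff_exists_fun K).mp hv
    refine ⟨fun i => if h : i < d then a ⟨i, h⟩ else 0, ?_⟩
    have h7 : gs p d (fun i => if h : i < d then a ⟨i, h⟩ else 0) = v := by
      rw [← ha]
      unfold gs
      rw [Finset.sum_range]
      refine Finset.sum_congr rfl fun i _ => ?_
      simp
    rw [h7, ← huv, add_sub_cancel_right]
    exact hu

end Pool.Agent.R369.Fad
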